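import Pool.Agent.Lib.MP_d3d358_ag.Fm.KerA
import Pool.Agent.Lib.MP_d3d358_ag.Th.HDefs
import Pool.Agent.Lib.MP_d3d358_ag.Th.Per

/-! The kernel of the Fourier-Mukai functor for a pair of dual lattices of type `(1, 5)`. -/

set_option autoImplicit false

namespace Pool.Agent.Lib.MP_d3d358_ag.Fm

open Matrix Complex Pool.Agent.Lib.MP_d3d358_ag.Th Pool.Agent.Lib.MP_d3d358_ag.G
open Pool.Agent.Lib.MP_d3d358_ag.Var (V)

noncomputable section

theorem alt_zero_left {n : ℕ} (z : Fin n → ℂ) : alt 0 z = 0 := by simp [alt]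

theorem alt_zero_right {n : ℕ} (z : Fin n → ℂ) : alt z 0 = 0 := by simp [alt]

theorem alt_tri (a b a' b' : Fin 2 → ℂ) :
    alt (tri a b) (tri a' b') = 2 * alt a a' + alt a b' + alt b a' + 2 * alt b b' := by
  rw [alt_crd, crd_two, crd_two, crd_tri_zero, crd_tri_zero, crd_tri_one, crd_tri_one,
    show -a' - b' = -(a' + b') by abel, show -a - b = -(a + b) by abel, alt_neg_right,
    alt_swap (-_), alt_neg_right, neg_neg, alt_swap (a' + b'), neg_neg, alt_add_left,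
    alt_add_right, alt_add_right]
  ring

theorem det_gram : (fromBlocks ((2 : ℝ) • (1 : Matrix (Fin 4) (Fin 4) ℝ)) 1 1
    ((2 : ℝ) • (1 : Matrix (Fin 4) (Fin 4) ℝ))).det = 81 := by
  have e : fromBlocks ((2 : ℝ) • (1 : Matrix (Fin 4) (Fin 4) ℝ)) 1 1
      ((2 : ℝ) • (1 : Matrix (Fin 4) (Fin 4) ℝ)) =
      fromBlocks 1 0 ((2⁻¹ : ℝ) • (1 : Matrix (Fin 4) (Fin 4) ℝ)) 1 *
        fromBlocks ((2 : ℝ) • (1 : Matrix (Fin 4) (Fin 4) ℝ)) 1 0
          ((3 / 2 : ℝ) • (1 : Matrix (Fin 4) (Fin 4) ℝ)) := by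
    rw [fromBlocks_multiply]
    simp only [Matrix.one_mul, Matrix.zero_mul, Matrix.mul_zero, add_zero, Matrix.smul_mul,
      Matrix.mul_one, smul_smul, ← add_smul]
    norm_num
  rw [e, det_mul, det_fromBlocks_zero₁₂, det_fromBlocks_zero₂₁]
  simp
  norm_num

theorem vol_lat3 {A B : Lat 2} (h : Dual A B) : (lat3 A).vol * (lat3 B).vol = 81 := by
  rw [vol_mul_vol, ← det_submatrix_equiv_self (finSumFinEquiv (m := 4) (n := 4))]
  have e : (of fun i j => alt ((lat3 A).bas i) ((lat3 B).bas j)).submatrix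
      (finSumFinEquiv (m := 4) (n := 4)) (finSumFinEquiv (m := 4) (n := 4)) =
      fromBlocks ((2 : ℝ) • (1 : Matrix (Fin 4) (Fin 4) ℝ)) 1 1
        ((2 : ℝ) • (1 : Matrix (Fin 4) (Fin 4) ℝ)) := by
    ext (i | i) (j | j) <;>
      simp only [submatrix_apply, of_apply, lat3_inl, lat3_inr, alt_tri, alt_zero_left,
        alt_zero_right, h.dual, fromBlocks_apply₁₁, fromBlocks_apply₁₂, fromBlocks_apply₂₁,
        fromBlocks_apply₂₂, Matrix.smul_apply, Matrix.one_apply, smul_eq_mul] <;> ring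
  rw [e, det_gram]
  norm_num

theorem actL_zero {n : ℕ} (C : Cr n) (g : C.G) : C.actL g 0 = 0 := Subtype.ext (map_zero (C.act g))

/-- the kernel restricted to the first lattice -/
@[reducible] def kerObj {A B : Sf} (h : Dual A.toLat B.toLat) : Obj A.cr where
  ι := Fin 2 → ZMod 3
  t _ := 1 / 3
  ρ l := rho0 A B l 0
  ρ_unit l := rho0_unit A B l 0
  ρ_blk _ _ _ _ := rfl
  ρ_mul l l' := by
    rw [rho0_mul h, add_zero, ← Matrix.smul_eq_diagonal_mul]
    simp [alt_zero_left, alt_zero_right]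
  σ := sig (Fin 2)
  σ_unit := sig_unit
  σ_blk _ _ _ _ := rfl
  σ_mul := sig_mul
  σ_ρ g l := by rw [sig_rho0, actL_zero]

/-- the kernel -/
def ker {A B : Sf} (h : Dual A.toLat B.toLat) : Ker A.cr B.cr where
  e := MulEquiv.refl _
  act_e _ _ := rfl
  p := -1 / 3
  b := -1 / 3
  q := 5 / 3
  b_ne := by norm_num
  K := kerObj h
  K_t _ := by norm_num
  ρ1 m := rho0 A B 0 m
  ρ1_unit m := rho0_unit A B 0 m
  ρ1_mul m m' := by
    rw [rho0_mul h, add_zero]
    congr 4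
    simp [alt_zero_left, alt_zero_right]
    ring
  comm m l := by
    change rho0 A B 0 m * rho0 A B l 0 = _ • (rho0 A B l 0 * rho0 A B 0 m)
    rw [rho0_mul h, rho0_mul h, smul_smul, ← Complex.exp_add, zero_add, zero_add, add_zero,
      add_zero, alt_swap (m : V) l]
    congr 2
    simp [alt_zero_left, alt_zero_right]
    ring
  σ_ρ1 g m := by
    change sig (Fin 2) g * rho0 A B 0 m = rho0 A B 0 (B.cr.actL g m) * sig (Fin 2) g
    rw [sig_rho0, actL_zero]
  num := by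
    change (Fintype.card (Fin 2 → ZMod 3) : ℝ) ^ 2 * (lat3 A.toLat).vol * (lat3 B.toLat).vol * _ = 1
    rw [mul_assoc _ (lat3 A.toLat).vol, vol_lat3 h]
    simp
    norm_num

end

end Pool.Agent.Lib.MP_d3d358_ag.Fm
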