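import Pool.Agent.Lib.MP_d3d358_ag.Fm.Jeq
import Pool.Agent.Lib.MP_d3d358_ag.Hom.Sg
import Pool.Agent.Lib.MP_d3d358_ag.Th.Phi
import Pool.Agent.Lib.MP_d3d358_ag.Th.V2

/-! The Fourier-Mukai functor keeps pointwise exact complexes. -/

set_option autoImplicit false

namespace Pool.Agent.Lib.MP_d3d358_ag.Th

open Matrix Complex CategoryTheory

variable {n : ℕ} {C C' : Cr n}

theorem exact_toMatrix {U V W α β γ : Type} [AddCommGroup U] [Module ℂ U] [AddCommGroup V]
    [Module ℂ V] [AddCommGroup W] [Module ℂ W] [Fintype α] [Fintype β] [Finite γ] [DecidableEq α]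
    [DecidableEq β] (a : Module.Basis α ℂ U) (b : Module.Basis β ℂ V) (c : Module.Basis γ ℂ W)
    {f : U →ₗ[ℂ] V} {g : V →ₗ[ℂ] W} (h : Function.Exact f g) :
    Function.Exact (LinearMap.toMatrix a b f).mulVec (LinearMap.toMatrix b c g).mulVec := by
  intro x
  obtain ⟨v, rfl⟩ := b.equivFun.surjective x
  rw [b.equivFun_apply, LinearMap.toMatrix_mulVec_repr]
  constructor
  · intro e
    obtain ⟨u, rfl⟩ := (h v).1 (c.repr.map_eq_zero_iff.1 (Finsupp.coe_eq_zero.1 e))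
    exact ⟨a.repr u, LinearMap.toMatrix_mulVec_repr a b f u⟩
  · rintro ⟨x, hx⟩
    obtain ⟨u, rfl⟩ := a.equivFun.surjective x
    rw [a.equivFun_apply, LinearMap.toMatrix_mulVec_repr] at hx
    rw [← b.repr.injective (DFunLike.coe_injective hx), h.apply_apply_eq_zero, map_zero,
      Finsupp.coe_zero]

/-- The statement for any functor whose values are the matrices of the fibre maps. -/
theorem F4_of (κ : Ker C C') (Φ : PC C (-κ.p) ⥤ Obj C') [Φ.Additive]
    (bas : ∀ E : PC C (-κ.p), Module.Basis (Φ.obj E).ι ℂ (κ.W E.obj.toObjL))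
    (hΦ : ∀ (E F : PC C (-κ.p)) (u : E ⟶ F) (y : Fin n → ℂ), val (Φ.map u) y =
      LinearMap.toMatrix (bas E) (bas F) (Ker.PhiL E.property F.property ⟨u.hom.1, u.hom.2.1⟩ y))
    {X : HK (PC C (-κ.p))} (h : ∀ y, Va (ind (κ.Ky y)) ((KF (inc C _)).obj X)) :
    PAc ((KF Φ).obj X) := by
  obtain ⟨X, rfl⟩ := HomotopyCategory.quotient_obj_surjective X
  refine (PAc_iff ((Φ.mapHomologicalComplex _).obj X)).2 fun i j k hij hjk y => ?_
  have a := (va_iff _ (((inc C _).mapHomologicalComplex _).obj X)).1 (h y) i j k hij hjk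
  change Function.Exact (val (Φ.map (X.d i j)) y).mulVec (val (Φ.map (X.d j k)) y).mulVec
  rw [hΦ, hΦ]
  exact exact_toMatrix _ _ _ (Ker.exact_PhiL _ _ _ (X.d i j).hom (X.d j k).hom
    (congrArg (·.hom) (X.d_comp_d i j k)) y a)

theorem F4_va (κ : Ker C C') {X : HK (PC C (-κ.p))}
    (h : ∀ y, Va (ind (κ.Ky y)) ((KF (inc C _)).obj X)) : PAc ((KF κ.Phi).obj X) :=
  F4_of κ κ.Phi (fun E => κ.bas E.obj.toObjL) (fun _ _ _ _ => rfl) h

theorem en_inc {a : ℝ} {X : HK (PC C a)} (hX : En ⊤ X) : En (Gt a) ((KF (inc C a)).obj X) :=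
  En.map (inc C a) (fun E _ => E.property) hX

end Pool.Agent.Lib.MP_d3d358_ag.Th
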