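import Pool.Agent.Lib.MP_d3d358_ag.Th.PhiA
import Pool.Agent.Lib.MP_d3d358_ag.Hom.Defs

/-! A twist of the regular object as a retract, and the Heisenberg translation that turns a common
eigenvector of the second lattice into an invariant vector. -/

set_option autoImplicit false

namespace Pool.Agent.Lib.MP_d3d358_ag.Th

open Matrix Complex CategoryTheory

variable {n : ℕ} {C C' : Cr n}

theorem fac_const (F : Obj C) {t : ℝ} (ht : ∀ c, F.t c = t) (l : C.L) (z : Fin n → ℂ) :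
    F.fac l z = aut t l z • F.ρ l := by
  ext i j
  rw [ObjL.fac, diagonal_mul, ht]
  rfl

/-- A constant matrix as a morphism between objects of one constant type. -/
noncomputable def cstHom (E F : Obj C) {t : ℝ} (hE : ∀ c, E.t c = t) (hF : ∀ c, F.t c = t)
    (P : Matrix F.ι E.ι ℂ) (h1 : ∀ l, P * E.ρ l = F.ρ l * P) (h2 : ∀ g, P * E.σ g = F.σ g * P) :
    E ⟶ F :=
  ⟨fun _ => P, ⟨fun _ _ => differentiable_const _, fun l z => by
    rw [fac_const E hE, fac_const F hF, Matrix.mul_smul, Matrix.smul_mul, h1]⟩, fun g _ => h2 g⟩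

theorem intertw_adj {α β : Type} [Fintype α] [Fintype β] [DecidableEq α] [DecidableEq β]
    {P : Matrix β α ℂ} {U : Matrix α α ℂ} {V : Matrix β β ℂ} (hU : Uᴴ * U = 1) (hV : Vᴴ * V = 1)
    (h : P * U = V * P) : Pᴴ * V = U * Pᴴ := by
  have h1 : Uᴴ * Pᴴ = Pᴴ * Vᴴ := by rw [← conjTranspose_mul, h, conjTranspose_mul]
  calc Pᴴ * V = U * (Uᴴ * Pᴴ) * V := by
        rw [← Matrix.mul_assoc, mul_eq_one_comm.1 hU, Matrix.one_mul]
    _ = U * Pᴴ := by rw [h1, Matrix.mul_assoc, Matrix.mul_assoc, hV, Matrix.mul_one]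

theorem inv_intertw {α β : Type} [Fintype α] [Fintype β] [DecidableEq α] [DecidableEq β]
    {P : Matrix β α ℂ} {U : Matrix α α ℂ} {V : Matrix β β ℂ} (hU : Uᴴ * U = 1) (hV : Vᴴ * V = 1)
    (h : P * U = V * P) {N : Matrix α α ℂ} (hN : N * (Pᴴ * P) = 1) :
    N * Pᴴ * V = U * (N * Pᴴ) := by
  have h1 := intertw_adj hU hV h
  have h2 : Pᴴ * P * U = U * (Pᴴ * P) := by
    rw [Matrix.mul_assoc, h, ← Matrix.mul_assoc, h1, Matrix.mul_assoc]
  have h3 : N * U = U * N := by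
    calc N * U = N * (U * (Pᴴ * P)) * N := by
          rw [Matrix.mul_assoc, Matrix.mul_assoc, mul_eq_one_comm.1 hN, Matrix.mul_one]
      _ = U * N := by rw [← h2, ← Matrix.mul_assoc, hN, Matrix.one_mul]
  rw [Matrix.mul_assoc, h1, ← Matrix.mul_assoc, h3, Matrix.mul_assoc]

open scoped ComplexOrder in
/-- An injective constant intertwiner splits. -/
theorem retract_of_inj (E F : Obj C) {t : ℝ} (hE : ∀ c, E.t c = t) (hF : ∀ c, F.t c = t)
    (P : Matrix F.ι E.ι ℂ) (h1 : ∀ l, P * E.ρ l = F.ρ l * P) (h2 : ∀ g, P * E.σ g = F.σ g * P)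
    (hP : Function.Injective P.mulVec) : Nonempty (Retract E F) := by
  obtain ⟨N, hN⟩ := (Matrix.PosDef.conjTranspose_mul_self P hP).isUnit.exists_left_inv
  refine ⟨⟨cstHom E F hE hF P h1 h2, cstHom F E hF hE (N * Pᴴ)
    (fun l => inv_intertw (E.ρ_unit l) (F.ρ_unit l) (h1 l) hN)
    (fun g => inv_intertw (E.σ_unit g) (F.σ_unit g) (h2 g) hN), hom_ext fun z => ?_⟩⟩
  change N * Pᴴ * P = 1
  rw [Matrix.mul_assoc, hN]

/-- An invariant vector with independent translates gives a copy of the regular object. -/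
theorem retract_F0 (F : Obj C) (a : ℤ) (hF : ∀ c, F.t c = a * C.k) (x : F.ι → ℂ)
    (hx : ∀ l, F.ρ l *ᵥ x = x)
    (hi : ∀ c : C.G → ℂ, ∑ h, c h • F.σ h *ᵥ x = 0 → c = 0) :
    Nonempty (Retract (twObj a (F0 C)) F) := by
  refine retract_of_inj _ F (t := a * C.k) (fun _ => zero_add _) hF
    (of fun c h => (F.σ h *ᵥ x) c) (fun l => ?_) (fun g => ?_) ?_
  · refine (Matrix.mul_one (of fun c h => (F.σ h *ᵥ x) c : Matrix F.ι C.G ℂ)).trans ?_
    ext c h
    obtain ⟨l, rfl⟩ : ∃ l', l = C.actL h l' := ⟨C.actL h⁻¹ l, Subtype.ext (by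
      change _ = (C.act h * C.act h⁻¹) l
      rw [← map_mul, mul_inv_cancel, map_one]; rfl)⟩
    have : F.ρ (C.actL h l) *ᵥ (F.σ h *ᵥ x) = F.σ h *ᵥ x := by
      rw [mulVec_mulVec, ← F.σ_ρ, ← mulVec_mulVec, hx]
    exact (congrFun this c).symm
  · change (of fun c h => (F.σ h *ᵥ x) c : Matrix F.ι C.G ℂ) * regM g = _
    ext c h
    have : F.σ (g * h) *ᵥ x = F.σ g *ᵥ (F.σ h *ᵥ x) := by rw [F.σ_mul, mulVec_mulVec]
    refine Eq.trans ?_ (congrFun this c)
    simp [Matrix.mul_apply, regM]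
  · refine (injective_iff_map_eq_zero (mulVecLin (of fun c h => (F.σ h *ᵥ x) c))).2 fun c hc => ?_
    refine hi c (funext fun j => ?_)
    have := congrFun hc j
    simp only [mulVecLin_apply, mulVec, dotProduct, of_apply, Pi.zero_apply] at this
    simpa only [Finset.sum_apply, Pi.smul_apply, smul_eq_mul, mul_comm, mulVec, dotProduct,
      Pi.zero_apply] using this

namespace Ker

variable {κ : Ker C C'}

theorem rows_cst {ι β : Type} {t : ι → ℝ} {τ : ℝ} (ht : ∀ i, t i = τ) (Φ : ℝ → Matrix ι β ℂ) :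
    rows t Φ = Φ τ := by
  ext i j; rw [rows_apply, ht]

/-- The translate of a common eigenvector is invariant for the twisted object. -/
theorem exists_invariant (ξ : ObjL C.toLat) {t : ℝ} (ht : ∀ i, ξ.t i = t) (hp : -(κ.p : ℝ) < t)
    {f : (Fin n → ℂ) → Matrix ξ.ι κ.K.ι ℂ} (hf : f ∈ κ.W ξ) (h0 : f ≠ 0) (v : Fin n → ℂ)
    (he : ∀ m : C'.L, κ.TmF ξ m f =
      exp (2 * Real.pi * I * (-(κ.b : ℝ) * alt v m : ℝ)) • f) :
    ∃ f' ∈ κ.W (ξ.chr (-(κ.p + t)) v), f' ≠ 0 ∧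
      ∀ m : C'.L, κ.TmF (ξ.chr (-(κ.p + t)) v) m f' = f' := by
  rw [mem_W] at hf
  refine ⟨fun z => exp (Real.pi * (κ.p + t : ℝ) * eta z v) • f (z - v), mem_W.2 ⟨fun i j => ?_,
    fun l z => ?_⟩, fun h => h0 (funext fun z => ?_), fun m => funext fun z => ?_⟩
  · exact ((differentiable_eta v).const_mul _).cexp.mul
      ((hf.1 i j).comp (differentiable_id.sub_const v))
  · rw [rows_cst ht, Matrix.smul_mul, add_sub_right_comm, hf.2 l, rows_cst ht, Matrix.smul_mul,
      Matrix.mul_smul, smul_smul, smul_smul, smul_smul]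
    congr 1
    simp only [aut, one_mul, ← Complex.exp_add, eta_add_left, eta_sub_left]
    congr 1
    have h2 := eta_sub_eta v (l : Fin n → ℂ)
    push_cast at h2 ⊢
    linear_combination (-Real.pi * (κ.p + t)) * h2
  · have := congrFun h (z + v)
    simp only [add_sub_cancel_right, Pi.zero_apply] at this
    exact (smul_eq_zero.1 this).resolve_left (Complex.exp_ne_zero _)
  · have h1 := congrFun (he m) (z - v)
    rw [TmF, rows_cst ht, Pi.smul_apply] at h1
    have h2 : f (z - v - κ.s t • (m : Fin n → ℂ)) * (κ.ρ1 m)ᴴ = ((κ.chi t m (z - v))⁻¹ *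
        exp (2 * Real.pi * I * (-(κ.b : ℝ) * alt v m : ℝ))) • f (z - v) := by
      rw [mul_smul, ← h1,
        inv_smul_smul₀ (show κ.chi t m (z - v) ≠ 0 from Complex.exp_ne_zero _)]
    rw [TmF, rows_cst ht, Matrix.smul_mul, sub_right_comm, h2, smul_smul, smul_smul]
    congr 1
    simp only [chi, ← Complex.exp_neg, ← Complex.exp_add, eta_sub_left, eta_rsmul_left]
    congr 1
    have h3 := κ.mul_s' hp
    have h4 := eta_sub_eta v (m : Fin n → ℂ)
    push_cast at h3 h4 ⊢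
    linear_combination (-Real.pi * eta (m : Fin n → ℂ) v) * h3 + (Real.pi * κ.b) * h4

end Ker

end Pool.Agent.Lib.MP_d3d358_ag.Th
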