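import Pool.Agent.Lib.MP_d3d358_ag.Th.Phi
import Pool.Agent.Lib.MP_d3d358_ag.Th.Span
import Pool.Agent.Lib.MP_d3d358_ag.Th.Reg
import Pool.Agent.Lib.MP_d3d358_ag.Th.Ind
import Pool.Agent.Lib.MP_d3d358_ag.Fm.F5A

/-! Every low twist of the regular object is a retract of a Fourier-Mukai transform. -/

set_option autoImplicit false

namespace Pool.Agent.Lib.MP_d3d358_ag.Th

open Matrix Complex CategoryTheory

variable {n : ℕ} {C C' : Cr n}

namespace Ker

variable {κ : Ker C C'}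

theorem K_nonempty (κ : Ker C C') : Nonempty κ.K.ι := by
  by_contra h
  have := κ.num
  rw [Fintype.card_eq_zero_iff.2 (not_nonempty_iff.1 h)] at this
  simp at this

theorem exists_W_ne {E : ObjL C.toLat} (hE : κ.Pos E) [Nonempty E.ι] : ∃ f ∈ κ.W E, f ≠ 0 := by
  by_contra h
  have := κ.K_nonempty
  have e := HomL_span κ.K.toObjL E (fun i j => by rw [κ.K_t]; exact hE i) (fun _ => 1)
    fun f hf z => by
      obtain rfl : f = 0 := by_contra fun h0 => h ⟨f, hf, h0⟩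
      simp
  exact one_ne_zero (congrFun e (Classical.arbitrary _))

theorem objL_t_cst {E : ObjL C.toLat} (hE : κ.Pos E) {t : ℝ} (ht : ∀ i, E.t i = t)
    (c : (objL hE).ι) : (objL hE).t c = κ.hat t := by
  obtain ⟨i, hi⟩ := exists_tau E c
  exact congrArg κ.hat (hi.symm.trans (ht i))

theorem mat_repr {E F : ObjL C.toLat} (T : κ.W E →ₗ[ℂ] κ.W F) (f : κ.W E) :
    κ.mat E F T *ᵥ (κ.bas E).equivFun f = (κ.bas F).equivFun (T f) :=
  LinearMap.toMatrix_mulVec_repr _ _ T f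

/-- A common eigenvector of the second lattice. -/
theorem exists_eigen (ξ : ObjL C.toLat) [Nonempty ξ.ι] {t : ℝ} (ht : ∀ i, ξ.t i = t)
    (hξ : κ.Pos ξ) {a : ℤ} (ha : κ.hat t = a * C'.k) :
    ∃ f ∈ κ.W ξ, f ≠ 0 ∧ ∃ v : Fin n → ℂ, ∀ m : C'.L, κ.TmF ξ m f =
      exp (2 * Real.pi * I * (-(κ.b : ℝ) * alt v m : ℝ)) • f := by
  obtain ⟨f₁, hf₁, h₁⟩ := exists_W_ne hξ
  have : Nontrivial (κ.W ξ) := ⟨⟨⟨f₁, hf₁⟩, 0, fun e => h₁ (congrArg Subtype.val e)⟩⟩
  have : Nonempty (objL hξ).ι := (κ.bas ξ).index_nonempty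
  have hm : ∀ m m', (objL hξ).ρ m * (objL hξ).ρ m' = (objL hξ).ρ (m + m') := fun m m' => by
    rw [ObjL.ρ_mul]
    simp only [objL_t_cst hξ ht, ha, exp_even, diagonal_one, Matrix.one_mul]
  obtain ⟨w, χ, hw, hχ⟩ := exists_common_eigen_mat (objL hξ).ρ fun m m' => by
    rw [hm, hm, add_comm]
  obtain ⟨v, hv⟩ := exists_char C'.toLat χ
    (fun m => norm_eigen ((objL hξ).ρ_unit m) hw (hχ m)) (fun m m' => by
      have : χ (m + m') • w = (χ m * χ m') • w := by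
        rw [← hχ, ← hm, ← mulVec_mulVec, hχ, mulVec_smul, hχ, smul_smul, mul_comm]
      exact smul_left_injective ℂ hw this) (c := -(κ.b : ℝ))
    (neg_ne_zero.2 (by exact_mod_cast κ.b_ne))
  obtain ⟨f, rfl⟩ := (κ.bas ξ).equivFun.surjective w
  refine ⟨f, f.2, fun e => hw ?_, v, fun m => ?_⟩
  · exact (congrArg _ (show f = 0 from Subtype.ext e)).trans (map_zero (κ.bas ξ).equivFun)
  · have : Tm hξ m f = χ m • f := (κ.bas ξ).equivFun.injective (by
      rw [map_smul, ← mat_repr]; exact hχ m)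
    rw [← hv]
    exact congrArg Subtype.val this

theorem indInc_mul (ξ : ObjL C.toLat) {β : Type} (X : Matrix ξ.ι β ℂ) (g : C.G) (i : ξ.ι) (j : β) :
    (indInc ξ * X) (g, i) j = if g = 1 then X i j else 0 := by
  by_cases h : g = 1 <;> simp [indInc, Matrix.mul_apply, h]

/-- An invariant vector gives a copy of the regular object in the transform of the induced
object. -/
theorem retract_ind (ξ : ObjL C.toLat) {t : ℝ} (ht : ∀ i, ξ.t i = t) (hp : -(κ.p : ℝ) < t)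
    {a : ℤ} (ha : κ.hat t = a * C'.k) {f : (Fin n → ℂ) → Matrix ξ.ι κ.K.ι ℂ} (hf : f ∈ κ.W ξ)
    (h0 : f ≠ 0) (he : ∀ m : C'.L, κ.TmF ξ m f = f) :
    ∃ hE : κ.Pos (ind ξ).toObjL, Nonempty (Retract (twObj a (F0 C')) (obj hE)) := by
  have ht' : ∀ x, (ind ξ).t x = t := fun x => ht x.2
  have hE : κ.Pos (ind ξ).toObjL := fun x => (ht' x).symm ▸ hp
  let f₀ : κ.W (ind ξ).toObjL := ⟨fun z => indInc ξ * f z, HomL.mul_mem hf (indInc_mem ξ)⟩
  refine ⟨hE, retract_F0 _ a (fun c => (objL_t_cst hE ht' c).trans ha)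
    ((κ.bas _).equivFun f₀) (fun m => (mat_repr _ _).trans (congrArg _ (Subtype.ext ?_)))
    fun c hc => ?_⟩
  · funext z
    have h1 := congrFun (he m) z
    rw [TmF, rows_cst ht] at h1
    rw [Tm_coe, TmF, rows_cst ht']
    change κ.chi t m z • (indInc ξ * f _ * (κ.ρ1 m)ᴴ) = indInc ξ * f z
    rw [← h1, Matrix.mul_smul, Matrix.mul_assoc]
  · have h1 : ∑ h, c h • κ.Sg (ind ξ) (κ.e h) f₀ = 0 :=
      (κ.bas (ind ξ).toObjL).equivFun.injective (by
        rw [map_sum, map_zero]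
        exact (Finset.sum_congr rfl fun h _ => by rw [map_smul, ← mat_repr]; rfl).trans hc)
    funext g
    by_contra hg
    refine h0 (funext fun z => ?_)
    have h2 : c g • (f z * (κ.K.σ (κ.e g))ᴴ) = 0 := by
      ext i j
      have h3 := congrArg (fun u : κ.W (ind ξ).toObjL => u.1 (C.act (κ.e g) z) (κ.e g, i) j) h1
      have h5 : ∀ h, (κ.Sg (ind ξ) (κ.e h) f₀).1 (C.act (κ.e g) z) (κ.e g, i) j =
          if (κ.e h)⁻¹ * κ.e g = 1 then
            (f ((C.act (κ.e h)).symm (C.act (κ.e g) z)) * (κ.K.σ (κ.e h))ᴴ) i j else 0 :=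
        fun h => (Ind.sig_mul _ _ _ _).trans (by
          rw [← indInc_mul, ← Matrix.mul_assoc])
      simp only [Submodule.coe_sum, Finset.sum_apply, Matrix.sum_apply, Submodule.coe_smul,
        Pi.smul_apply, Matrix.smul_apply, h5] at h3
      rw [Finset.sum_eq_single g (fun h _ hh => by
        rw [if_neg, smul_zero]
        exact fun e => hh (κ.e.injective (inv_mul_eq_one.1 e))) (by simp),
        if_pos (inv_mul_cancel _), LinearEquiv.symm_apply_apply] at h3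
      exact h3
    have h4 := (smul_eq_zero.1 h2).resolve_left hg
    rw [← Matrix.mul_one (f z), ← κ.K.σ_unit (κ.e g), ← Matrix.mul_assoc, h4, Matrix.zero_mul]
    rfl

end Ker

theorem F5 (κ : Ker C C') (a : ℤ) (h : (a : ℚ) * C'.k < κ.q) :
    ∃ E : PC C (-κ.p), Nonempty (Retract (twObj a (F0 C')) (κ.Phi.obj E)) := by
  obtain ⟨ξ, hne, ht⟩ := exists_reg C (κ.b ^ 2 / (κ.q - a * C'.k) - κ.p)
  have hb : (κ.b : ℝ) ≠ 0 := by exact_mod_cast κ.b_ne
  have hd : (0 : ℝ) < κ.q - a * C'.k := by exact_mod_cast sub_pos.2 h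
  have hp : -(κ.p : ℝ) < ((κ.b ^ 2 / (κ.q - a * C'.k) - κ.p : ℚ) : ℝ) := by
    have : (0 : ℝ) < κ.b ^ 2 / (κ.q - a * C'.k) := by positivity
    push_cast
    linarith
  have ha : κ.hat ((κ.b ^ 2 / (κ.q - a * C'.k) - κ.p : ℚ) : ℝ) = a * C'.k := by
    rw [Ker.hat, Ker.s]
    push_cast
    rw [add_sub_cancel]
    field_simp
    ring
  obtain ⟨f, hf, h0, v, hv⟩ := Ker.exists_eigen ξ ht (fun i => (ht i).symm ▸ hp) ha
  obtain ⟨f', hf', h0', hv'⟩ := Ker.exists_invariant ξ ht hp hf h0 v hv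
  obtain ⟨hE, r⟩ := Ker.retract_ind (ξ.chr _ v) ht hp ha hf' h0' hv'
  exact ⟨⟨ind _, hE⟩, r⟩

end Pool.Agent.Lib.MP_d3d358_ag.Th
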