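import Pool.Agent.Lib.MP_d3d358_ag.Th.Phi
import Pool.Agent.Lib.MP_d3d358_ag.Th.HomSec
import Pool.Agent.Lib.MP_d3d358_ag.Hom.Defs

/-! The Fourier-Mukai functor: exported names, counting. -/

set_option autoImplicit false

namespace Pool.Agent.Lib.MP_d3d358_ag.Th

open Matrix Complex CategoryTheory

variable {n : ℕ} {C C' : Cr n}

/-- The Fourier-Mukai functor. -/
noncomputable abbrev Phi (κ : Ker C C') : PC C (-κ.p) ⥤ Obj C' := κ.Phi

theorem Phi_t (κ : Ker C C') (E : PC C (-κ.p)) (c : ((Phi κ).obj E).ι) :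
    ∃ i, ((Phi κ).obj E).t c = κ.hat (E.obj.t i) := by
  obtain ⟨i, hi⟩ := Ker.exists_tau (κ := κ) E.obj.toObjL c
  exact ⟨i, (congrArg κ.hat hi).symm⟩

namespace Ker

variable {κ : Ker C C'}

theorem hat_eq (t : ℝ) : κ.hat t = κ.q - κ.b ^ 2 / (κ.p + t) := by
  rw [hat, s, sq, mul_div_assoc]

/-- The number of basis vectors of each type. -/
theorem count {E : ObjL C.toLat} (hE : κ.Pos E) (w : ℝ → ℝ) : ∑ c, w (κ.tau E c) =
    C.vol * Fintype.card κ.K.ι * ∑ i, w (E.t i) * (E.t i + κ.p) ^ n := by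
  have := sum_basis_HomL κ.K.toObjL E κ.K_t hE (κ.bas E) (κ.tau E)
    (fun c z i j h => by_contra fun e => h (bas_pure E c z i j e)) w
  simpa only [sub_neg_eq_add] using this

/-- Equivariance of the transform for a pair of morphisms. -/
theorem PhiL_Sg' {E F : Obj C} (hE : κ.Pos E.toObjL) (hF : κ.Pos F.toObjL)
    (u u' : HomL E.toObjL F.toObjL) (g : C.G)
    (hu : ∀ z, u'.1 (C.act g z) * E.σ g = F.σ g * u.1 z) (y : Fin n → ℂ) :
    PhiL hE hF u' (C.act g y) ∘ₗ κ.Sg E g = κ.Sg F g ∘ₗ PhiL hE hF u y := by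
  refine LinearMap.ext fun f => Subtype.ext ?_
  funext z
  obtain ⟨z, rfl⟩ := (C.act g).surjective z
  rw [LinearMap.comp_apply, LinearMap.comp_apply, Sg_coe, PhiL_coe, PhiL_coe, Sg_coe, SgF,
    LinearEquiv.symm_apply_apply, PhiF_mulR, PhiF, PhiF, J, J, blk_mul_rows (F.σ_blk _)]
  refine rows_congr fun j a => ?_
  have h2 : ∀ (c : ℝ) (x w : Fin n → ℂ), C.act g x + c • C.act g w = C.act g (x + c • w) :=
    fun c x w => by rw [map_add, act_rsmul]
  rw [← map_neg, h2, ← Matrix.mul_assoc, ← hu, Matrix.mul_assoc, J, J, blk_mul_rows (E.σ_blk _)]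
  simp only [h2, SgF, LinearEquiv.symm_apply_apply]

theorem val_Phi_map {E F : PC C (-κ.p)} (u : E ⟶ F) (y : Fin n → ℂ) : val ((Phi κ).map u) y =
    LinearMap.toMatrix (κ.bas E.obj.toObjL) (κ.bas F.obj.toObjL)
      (PhiL E.property F.property (toL u.hom) y) := rfl

end Ker

end Pool.Agent.Lib.MP_d3d358_ag.Th
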