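import Pool.Agent.Lib.MP_d3d358_ag.Fm.F3
import Pool.Agent.Lib.MP_d3d358_ag.Fm.F5
import Pool.Agent.Lib.MP_d3d358_ag.Fm.Phi
import Pool.Agent.Lib.MP_d3d358_ag.Hom.Win
import Pool.Agent.Lib.MP_d3d358_ag.Fm.F4A
import Pool.Agent.Lib.MP_d3d358_ag.Hom.Good
import Pool.Agent.Lib.MP_d3d358_ag.Hom.KE

/-! The derived equivalence. -/

set_option autoImplicit false

namespace Pool.Agent.Lib.MP_d3d358_ag.Th

open CategoryTheory Limits Pretriangulated Abelian

theorem exists_sep {ι κ : Type} [Finite ι] [Finite κ] (s : ι → ℝ) (t : κ → ℝ)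
    (h : ∀ i j, s i < t j) : ∃ a, (∀ i, s i ≤ a) ∧ ∀ j, a < t j := by
  rcases isEmpty_or_nonempty ι with hι | hι
  · obtain ⟨a, ha⟩ := (Set.finite_range t).bddBelow
    exact ⟨a - 1, fun i => isEmptyElim i, fun j => (sub_one_lt a).trans_le (ha ⟨j, rfl⟩)⟩
  · obtain ⟨i, hi⟩ := Finite.exists_max s
    exact ⟨s i, hi, h i⟩

theorem bij_comp {P Q A : Type 1} [Category.{0} P] [Preadditive P] [HasZeroObject P]
    [HasBinaryBiproducts P] [Category.{0} Q] [Preadditive Q] [HasZeroObject Q]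
    [HasBinaryBiproducts Q] [Category.{0} A] [Abelian A] [HasExt.{1} A] [HasDerivedCategory.{1} A]
    (G : P ⥤ Q) [G.Additive] (α : Q ⥤ A) [α.Additive] {X Y : P} (h : Mor.Bij₀ G X Y)
    (h' : Mor.Bij (DF α) (sing (G.obj X)) (sing (G.obj Y))) :
    Mor.Bij (DF (G ⋙ α)) (sing X) (sing Y) :=
  have h'' := (Mor.bij_DF_iff α _ _).1 h'
  (Mor.bij_DF_iff (G ⋙ α) X Y).2 ⟨h.comp h''.1, h''.2⟩

variable {n : ℕ} {C C' : Cr n}

/-- The zero object of the subcategory. -/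
noncomputable def zeroPC (C : Cr n) (a : ℝ) : PC C a := ⟨zeroObj C, fun i => Empty.elim i⟩

/-- The bounded derived categories on the two sides are equivalent. -/
theorem derived_equiv {A A' : Type 1} [Category.{0} A] [Abelian A] [Linear ℂ A] [HasExt.{1} A]
    [HasDerivedCategory.{1} A] [Category.{0} A'] [Abelian A'] [Linear ℂ A'] [HasExt.{1} A']
    [HasDerivedCategory.{1} A'] (κ : Ker C C') (B : BKR C A) (B' : BKR C' A') :
    ∃ (F : DerivedCategory.Bounded A ⥤ DerivedCategory.Bounded A') (_ : F.CommShift ℤ),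
      F.IsEquivalence ∧ F.IsTriangulated ∧ F.Linear ℂ := by
  refine Mor.mor (k := ℂ) (inc C (-κ.p) ⋙ B.α) (Phi κ ⋙ B'.α) (fun a X => Le a X.obj)
    (fun b X => Ge b X.obj) (fun a b h X hX i => (hX i).trans h)
    (fun a b h X hX i => h.trans (hX i)) (fun X => ?_) ?_ ?_ ?_ ?_ ?_
  · obtain ⟨a, ha⟩ := (Set.finite_range X.obj.t).bddAbove
    exact ⟨a, fun i => ha ⟨i, rfl⟩⟩
  · intro a b X Y h hX hY
    exact bij_comp _ _ (Mor.Bij₀.of_ff _ _ _) (B.good hX fun i => h.trans_le (hY i))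
  · intro a b X Y h hX hY
    obtain ⟨c, h1, h2⟩ := exists_sep ((Phi κ).obj X).t ((Phi κ).obj Y).t fun i j => by
      obtain ⟨i', hi⟩ := Phi_t κ X i
      obtain ⟨j', hj⟩ := Phi_t κ Y j
      rw [hi, hj]
      exact Ker.hat_lt (X.property i') (((hX i').trans_lt h).trans_le (hY j'))
    exact bij_comp _ _ (F3 κ hX fun i => h.trans_le (hY i)) (B'.good h1 h2)
  · intro X b
    obtain ⟨Y, s, hY, hs⟩ := res_PC B.y B.y_mem B.bpf X b
    have hX : En ⊤ (sing X) := Mor.Env.of ⟨X, trivial, rfl⟩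
    have hY' : En ⊤ Y := Mor.Env.mono (fun _ ⟨E, _, e⟩ => ⟨E, trivial, e⟩) _ hY
    refine ⟨Y, s, Mor.env_mono (fun E hE i => (hE i).le)
      (En.le_env (X := zeroPC C _) (fun i => Empty.elim i) _ hY), ?_, ?_⟩
    · exact (NatIso.isIso_map_iff (dfComp (inc C _) B.α) s).2
        (B.isIso (En.map _ (fun _ _ => trivial) hX) (En.map _ (fun _ _ => trivial) hY') hs)
    · obtain ⟨N, f, g, hT⟩ := distinguished_cocone_triangle s
      have h1 := (PIso_iff _ ((KF (inc C _)).map_distinguished _ hT)).1 hs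
      have h2 := F4_va κ fun y => B.KE (κ.le_ind_Ky y) (en_inc (Mor.Env.ext₃ _ hT hX hY')) h1
      have h3 := (PIso_iff _ ((KF (Phi κ)).map_distinguished _ hT)).2 h2
      exact (NatIso.isIso_map_iff (dfComp (Phi κ) B'.α) s).2
        (B'.isIso (En.map _ (fun _ _ => trivial) hX) (En.map _ (fun _ _ => trivial) hY') h3)
  · intro Z hZ
    let W : ObjectProperty (DerivedCategory A) := fun W => ∃ X : PC C (-κ.p),
      Nonempty (Retract W ((DerivedCategory.singleFunctor A 0).obj ((inc C _ ⋙ B.α).obj X)))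
    have : W.Nonempty := ⟨_, zeroPC C _, ⟨Retract.refl _⟩⟩
    refine (ObjectProperty.triangEnvelope_le_iff _ (Q := W.triangEnvelope)).2 ?_ Z (B.B4 Z hZ)
    rintro _ ⟨a, rfl⟩
    obtain ⟨Y, hY, ⟨e⟩⟩ := B.dense_src (-κ.p) a
    refine W.triangEnvelope.prop_of_iso e.symm (Mor.thick_map (A := DF (inc C _ ⋙ B.α)) ?_
      (En.le_env (X := zeroPC C _) trivial _ hY))
    rintro _ ⟨X, -, rfl⟩
    exact W.le_triangEnvelope _ ⟨X, ⟨Retract.ofIso ((Mor.singDF _).app X)⟩⟩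
  · intro Z hZ
    let W : ObjectProperty (DerivedCategory A') := fun W => ∃ X : PC C (-κ.p),
      Nonempty (Retract W ((DerivedCategory.singleFunctor A' 0).obj ((Phi κ ⋙ B'.α).obj X)))
    have : W.Nonempty := ⟨_, zeroPC C _, ⟨Retract.refl _⟩⟩
    refine (ObjectProperty.triangEnvelope_le_iff _ (Q := W.triangEnvelope)).2 ?_ Z (B'.B4 Z hZ)
    rintro _ ⟨a, rfl⟩
    have hk : (0 : ℚ) < C'.k := by exact_mod_cast C'.k_pos
    refine Mor.Env.le_of_isTriangulated (Q := W.triangEnvelope) ?_ _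
      (B'.dense_low (⌊κ.q / C'.k⌋ - 1) a)
    rintro _ ⟨b, hb, rfl⟩
    obtain ⟨E, ⟨ρ⟩⟩ := F5 κ b (by
      have h1 : (b : ℚ) ≤ ⌊κ.q / C'.k⌋ - 1 := by exact_mod_cast hb
      exact (lt_div_iff₀ hk).1 (by linarith [Int.floor_le (κ.q / C'.k)]))
    exact W.le_triangEnvelope _
      ⟨E, ⟨(ρ.map B'.α).map (DerivedCategory.singleFunctor A' 0)⟩⟩

end Pool.Agent.Lib.MP_d3d358_ag.Th
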