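import Pool.Agent.Lib.MP_d3d358_ag.Fm.F3A
import Pool.Agent.Lib.MP_d3d358_ag.Th.Phi
import Pool.Agent.Lib.MP_d3d358_ag.Mor.Dev

/-! The transform is bijective on the morphisms from lower to higher types. -/

set_option autoImplicit false

namespace Pool.Agent.Lib.MP_d3d358_ag.Th

open Matrix Complex CategoryTheory

variable {n : ℕ} {C C' : Cr n}

namespace Ker

variable {κ : Ker C C'}

theorem bas_supp (E : ObjL C.toLat) (c : κ.Ix E) (z : Fin n → ℂ) (i : E.ι) (j : κ.K.ι)
    (h : (κ.bas E c).1 z i j ≠ 0) : E.t i = κ.tau E c := by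
  by_contra e
  exact h (bas_pure E c z i j e)

/-- The types of the transform, counted with multiplicity. -/
theorem count_tau {E : ObjL C.toLat} (hE : κ.Pos E) (g : ℝ → ℝ) : ∑ c, g (κ.tau E c) =
    C.vol * Fintype.card κ.K.ι * ∑ i, g (E.t i) * (E.t i + κ.p) ^ n :=
  count_W hE (κ.bas E) (bas_supp E) g

theorem homL_injective {E F : ObjL C.toLat} (hE : κ.Pos E) (hF : κ.Pos F) :
    Function.Injective (homL hE hF) := (injective_iff_map_eq_zero _).2 fun u hu =>
  Subtype.ext (eq_zero_of_PhiF hE fun y f hf => by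
    have h1 : PhiL hE hF u y = 0 :=
      (κ.mat E F).map_eq_zero_iff.1 (congrFun (congrArg Subtype.val hu) y)
    exact congrArg Subtype.val (LinearMap.congr_fun h1 ⟨f, hf⟩))

theorem homL_surjective {E F : ObjL C.toLat} (hE : κ.Pos E) (hF : κ.Pos F)
    (h : ∀ i j, E.t j < F.t i) : Function.Surjective (homL hE hF) := fun v => by
  obtain ⟨u, hu⟩ := PhiL_surj hE hF h (E' := objL hE) (F' := objL hF) (κ.bas E) (κ.bas F)
    (bas_supp E) (bas_supp F) (fun _ => rfl) (fun _ => rfl) (homL_mem hE hF) v.2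
  exact ⟨u, Subtype.ext (funext hu)⟩

theorem hom_surjective {E F : Obj C} (hE : κ.Pos E.toObjL) (hF : κ.Pos F.toObjL)
    (h : ∀ i j, E.t j < F.t i) : Function.Surjective (hom hE hF) := fun v => by
  obtain ⟨u, hu⟩ := homL_surjective hE hF h (toL v)
  have hu' : ∀ y, κ.mat E.toObjL F.toObjL (PhiL hE hF u y) = val v y :=
    congrFun (congrArg Subtype.val hu)
  refine ⟨⟨u.1, u.2, fun g z => equivariant_of_PhiL hE hF u g (fun y => ?_) z⟩, hom_ext hu'⟩
  obtain ⟨g, rfl⟩ := κ.e.surjective g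
  refine (κ.mat E.toObjL F.toObjL).injective ?_
  rw [mat_comp, mat_comp, hu', hu', κ.act_e]
  exact val_act v g y

end Ker

theorem F3 (κ : Ker C C') {a : ℝ} {E F : PC C (-κ.p)} (hE : Le a E.obj) (hF : Gt a F.obj) :
    Mor.Bij₀ κ.Phi E F := by
  refine ⟨fun u v e => ObjectProperty.hom_ext _ (hom_ext fun z => ?_), fun v => ?_⟩
  · have h := Ker.homL_injective (κ := κ) E.property F.property (a₁ := toL u.hom)
      (a₂ := toL v.hom) (Subtype.ext (funext fun y => congrArg (val · y) e))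
    exact congrFun (congrArg Subtype.val h) z
  · obtain ⟨u, hu⟩ := Ker.hom_surjective (κ := κ) E.property F.property
      (fun i j => (hE j).trans_lt (hF i)) v
    exact ⟨ObjectProperty.homMk u, hu⟩

end Pool.Agent.Lib.MP_d3d358_ag.Th
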