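import Pool.Agent.Lib.MP_d3d358_ag.Th.PhiB
import Pool.Agent.Lib.MP_d3d358_ag.Th.Avg
import Pool.Agent.Lib.MP_d3d358_ag.Th.HomSec
import Pool.Agent.Lib.MP_d3d358_ag.Th.Span

/-! The transform is bijective on the morphisms from lower to higher types: the lattice part. -/

set_option autoImplicit false

namespace Pool.Agent.Lib.MP_d3d358_ag.Th.Ker

open Matrix Complex

variable {n : ℕ} {C C' : Cr n} {κ : Ker C C'}

theorem nonempty_K (κ : Ker C C') : Nonempty κ.K.ι := by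
  rw [← Fintype.card_pos_iff, Nat.pos_iff_ne_zero]
  intro h
  simpa [h] using κ.num

theorem s_ne {τ : ℝ} (h : -(κ.p : ℝ) < τ) : κ.s τ ≠ 0 :=
  div_ne_zero (by exact_mod_cast κ.b_ne) (by linarith)

theorem hat_sub {σ τ : ℝ} (hσ : -(κ.p : ℝ) < σ) (hτ : -(κ.p : ℝ) < τ) :
    (κ.hat τ - κ.hat σ) * (τ + κ.p) * (σ + κ.p) = (κ.b : ℝ) ^ 2 * (τ - σ) := by
  have h1 := κ.mul_s hσ
  have h2 := κ.mul_s hτ
  rw [hat, hat]
  linear_combination (κ.b * (τ + κ.p)) * h1 - (κ.b * (σ + κ.p)) * h2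

theorem hat_lt {σ τ : ℝ} (hσ : -(κ.p : ℝ) < σ) (h : σ < τ) : κ.hat σ < κ.hat τ := by
  have h1 := hat_sub hσ (hσ.trans h)
  have hb : (κ.b : ℝ) ≠ 0 := by exact_mod_cast κ.b_ne
  have h2 : 0 < (κ.b : ℝ) ^ 2 * (τ - σ) := mul_pos (by positivity) (sub_pos.2 h)
  rw [← h1, mul_assoc] at h2
  exact sub_pos.1 (pos_of_mul_pos_left h2 (mul_pos (by linarith) (by linarith)).le)

/-- The transform of a nonzero morphism is nonzero. -/
theorem eq_zero_of_PhiF {E F : ObjL C.toLat} (hE : κ.Pos E)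
    {u : (Fin n → ℂ) → Matrix F.ι E.ι ℂ} (h : ∀ y, ∀ f ∈ κ.W E, κ.PhiF E F u y f = 0) : u = 0 := by
  have := κ.nonempty_K
  funext a; ext j i
  have key := HomL_span κ.K.toObjL E (fun i j => by rw [κ.K_t]; exact hE i)
    (fun i' => if E.t i' = E.t i then u a j i' else 0) fun f hf w => by
      funext c
      have h1 := h ((κ.s (E.t i))⁻¹ • (w - a)) _
        (κ.Dg E (fun τ => if τ = E.t i then 1 else 0) ⟨f, hf⟩).2
      have h2 := congrFun (congrFun (congrFun h1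
        (a + κ.s (F.t j) • (κ.s (E.t i))⁻¹ • (w - a))) j) c
      rw [PhiF_apply, add_sub_cancel_right] at h2
      refine Eq.trans (Finset.sum_congr rfl fun i' _ => ?_) h2
      rw [Dg_apply]
      beta_reduce
      split_ifs with e
      · rw [e, smul_inv_smul₀ (s_ne (hE i)), add_sub_cancel, one_mul]
      · simp
  simpa using congrFun key i

theorem J_SgF (E : Obj C) (g : C.G) (y : Fin n → ℂ) (f : (Fin n → ℂ) → Matrix E.ι κ.K.ι ℂ) :
    κ.J E.toObjL (C.act g y) (κ.SgF E g f) = κ.SgF E g (κ.J E.toObjL y f) := by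
  funext x
  rw [J, SgF, J, rows_mul, blk_mul_rows (E.σ_blk g)]
  refine rows_congr fun i j => ?_
  rw [SgF, map_add, ← Complex.coe_smul, map_smul, LinearEquiv.symm_apply_apply, Complex.coe_smul]

/-- The transform commutes with the action of the finite group on the morphisms. -/
theorem PhiF_conj (E F : Obj C) (u : (Fin n → ℂ) → Matrix F.ι E.ι ℂ) (g : C.G) (y : Fin n → ℂ)
    (f : (Fin n → ℂ) → Matrix E.ι κ.K.ι ℂ) :
    κ.PhiF E.toObjL F.toObjL u (C.act g y) (κ.SgF E g f) = κ.SgF F g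
      (κ.PhiF E.toObjL F.toObjL (fun z => (F.σ g)ᴴ * u (C.act g z) * E.σ g) y f) := by
  rw [PhiF, PhiF, ← J_SgF F, J_SgF E, map_neg]
  congr 1
  funext z
  simp only [SgF, LinearEquiv.apply_symm_apply, ← Matrix.mul_assoc, F.σ_unit', Matrix.one_mul]

theorem SgF_inj (E : Obj C) (g : C.G) {f f' : (Fin n → ℂ) → Matrix E.ι κ.K.ι ℂ}
    (h : κ.SgF E g f = κ.SgF E g f') : f = f' := by
  have e : ∀ f : (Fin n → ℂ) → Matrix E.ι κ.K.ι ℂ, ∀ z,
      f z = (E.σ g)ᴴ * κ.SgF E g f (C.act g z) * κ.K.σ g := fun f z => by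
    rw [SgF, LinearEquiv.symm_apply_apply, ← Matrix.mul_assoc, E.σ_unit, Matrix.one_mul,
      Matrix.mul_assoc, κ.K.σ_unit, Matrix.mul_one]
  funext z
  rw [e f, e f', h]

/-- A morphism whose transform is equivariant is equivariant. -/
theorem equivariant_of_PhiL {E F : Obj C} (hE : κ.Pos E.toObjL) (hF : κ.Pos F.toObjL)
    (u : HomL E.toObjL F.toObjL) (g : C.G)
    (h : ∀ y, PhiL hE hF u (C.act g y) ∘ₗ κ.Sg E g = κ.Sg F g ∘ₗ PhiL hE hF u y) (z : Fin n → ℂ) :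
    u.1 (C.act g z) * E.σ g = F.σ g * u.1 z := by
  have h0 := eq_zero_of_PhiF (F := F.toObjL) hE
    (u := (⟨_, conj_mem u.2 g⟩ - u : HomL E.toObjL F.toObjL).1) fun y f hf => by
      have h1 := congrArg Subtype.val (LinearMap.congr_fun (h y) ⟨f, hf⟩)
      simp only [LinearMap.comp_apply, PhiL_coe, Sg_coe] at h1
      have h2 := SgF_inj F g ((PhiF_conj E F u g y f).symm.trans h1)
      funext x; ext j a
      have h3 := congrFun (congrFun (congrFun h2 x) j) a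
      simp only [PhiF_apply] at h3
      simp only [PhiF_apply, Submodule.coe_sub, Pi.sub_apply, Matrix.sub_apply, sub_mul,
        Finset.sum_sub_distrib, h3, sub_self, Pi.zero_apply, Matrix.zero_apply]
  have h1 : (F.σ g)ᴴ * u.1 (C.act g z) * E.σ g = u.1 z := sub_eq_zero.1 (congrFun h0 z)
  rw [← h1, ← Matrix.mul_assoc, ← Matrix.mul_assoc, F.σ_unit', Matrix.one_mul]

theorem exists_type {E : ObjL C.toLat} {ι : Type} (b : Module.Basis ι ℂ (κ.W E)) {τ : ι → ℝ}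
    (hb : ∀ c z i j, (b c).1 z i j ≠ 0 → E.t i = τ c) (c : ι) : ∃ i, E.t i = τ c := by
  by_contra h
  refine b.ne_zero c (Subtype.ext (funext fun z => Matrix.ext fun i j => ?_))
  by_contra e
  exact h ⟨i, hb c z i j e⟩

theorem count_W {E : ObjL C.toLat} (hE : κ.Pos E) {ι : Type} [Fintype ι]
    (b : Module.Basis ι ℂ (κ.W E)) {τ : ι → ℝ}
    (hb : ∀ c z i j, (b c).1 z i j ≠ 0 → E.t i = τ c) (g : ℝ → ℝ) :
    ∑ c, g (τ c) = C.vol * Fintype.card κ.K.ι * ∑ i, g (E.t i) * (E.t i + κ.p) ^ n := by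
  simpa only [sub_neg_eq_add] using sum_basis_HomL κ.K.toObjL E κ.K_t hE b τ hb g

/-- The two spaces of morphisms have the same dimension. -/
theorem finrank_eq {E F : ObjL C.toLat} (hE : κ.Pos E) (hF : κ.Pos F) (h : ∀ i j, E.t j < F.t i)
    {E' F' : ObjL C'.toLat} (bE : Module.Basis E'.ι ℂ (κ.W E)) (bF : Module.Basis F'.ι ℂ (κ.W F))
    {σ : E'.ι → ℝ} {τ : F'.ι → ℝ} (hσ : ∀ c z i j, (bE c).1 z i j ≠ 0 → E.t i = σ c)
    (hτ : ∀ c z i j, (bF c).1 z i j ≠ 0 → F.t i = τ c) (tE : ∀ c, E'.t c = κ.hat (σ c))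
    (tF : ∀ c, F'.t c = κ.hat (τ c)) :
    Module.finrank ℂ (HomL E F) = Module.finrank ℂ (HomL E' F') := by
  have h' : ∀ i j, E'.t j < F'.t i := fun c' c => by
    obtain ⟨j, hj⟩ := exists_type bE hσ c
    obtain ⟨i, hi⟩ := exists_type bF hτ c'
    rw [tE, tF, ← hi, ← hj]
    exact hat_lt (hE j) (h i j)
  have e : ∀ x, ∑ c, (x - κ.hat (σ c)) ^ n = _ := fun x =>
    count_W hE bE hσ fun t => (x - κ.hat t) ^ n
  have e2 := count_W hF bF hτ fun t => C.vol * Fintype.card κ.K.ι *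
    ∑ j, (κ.hat t - κ.hat (E.t j)) ^ n * (E.t j + κ.p) ^ n
  have e3 : ∀ i, C.vol * Fintype.card κ.K.ι *
      (∑ j, (κ.hat (F.t i) - κ.hat (E.t j)) ^ n * (E.t j + κ.p) ^ n) * (F.t i + κ.p) ^ n =
      C.vol * Fintype.card κ.K.ι * (κ.b : ℝ) ^ (2 * n) * ∑ j, (F.t i - E.t j) ^ n := fun i => by
    rw [mul_assoc, mul_assoc _ (_ ^ (2 * n)), Finset.sum_mul, Finset.mul_sum _ _ (_ ^ (2 * n))]
    congr 1
    refine Finset.sum_congr rfl fun j _ => ?_
    rw [← mul_pow, ← mul_pow, mul_right_comm, hat_sub (hE j) (hF i), mul_pow, pow_mul]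
  refine Nat.cast_injective (R := ℝ) ?_
  rw [finrank_HomL E F h, finrank_HomL E' F' h']
  simp only [tE, tF, e]
  rw [e2]
  simp only [e3, ← Finset.mul_sum]
  linear_combination (-(C.vol * ∑ i, ∑ j, (F.t i - E.t j) ^ n)) * κ.num

/-- The transform is onto on the morphisms for the lattices. -/
theorem PhiL_surj {E F : ObjL C.toLat} (hE : κ.Pos E) (hF : κ.Pos F) (h : ∀ i j, E.t j < F.t i)
    {E' F' : ObjL C'.toLat} (bE : Module.Basis E'.ι ℂ (κ.W E)) (bF : Module.Basis F'.ι ℂ (κ.W F))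
    {σ : E'.ι → ℝ} {τ : F'.ι → ℝ} (hσ : ∀ c z i j, (bE c).1 z i j ≠ 0 → E.t i = σ c)
    (hτ : ∀ c z i j, (bF c).1 z i j ≠ 0 → F.t i = τ c) (tE : ∀ c, E'.t c = κ.hat (σ c))
    (tF : ∀ c, F'.t c = κ.hat (τ c))
    (hm : ∀ u : HomL E F, (fun y => LinearMap.toMatrix bE bF (PhiL hE hF u y)) ∈ HomL E' F')
    {v : (Fin n → ℂ) → Matrix F'.ι E'.ι ℂ} (hv : v ∈ HomL E' F') :
    ∃ u : HomL E F, ∀ y, LinearMap.toMatrix bE bF (PhiL hE hF u y) = v y := by
  let T : HomL E F →ₗ[ℂ] HomL E' F' :=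
    { toFun := fun u => ⟨_, hm u⟩
      map_add' := fun u v => Subtype.ext (funext fun y => by
        change LinearMap.toMatrix bE bF _ = LinearMap.toMatrix bE bF _ + LinearMap.toMatrix bE bF _
        rw [PhiL_add, map_add])
      map_smul' := fun c u => Subtype.ext (funext fun y => by
        change LinearMap.toMatrix bE bF _ = c • LinearMap.toMatrix bE bF _
        rw [PhiL_smul, map_smul]) }
  have hi : Function.Injective T := (injective_iff_map_eq_zero T).2 fun u hu =>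
    Subtype.ext (eq_zero_of_PhiF hE fun y f hf => by
      have h1 : PhiL hE hF u y = 0 :=
        (LinearMap.toMatrix bE bF).map_eq_zero_iff.1 (congrFun (congrArg Subtype.val hu) y)
      exact congrArg Subtype.val (LinearMap.congr_fun h1 ⟨f, hf⟩))
  obtain ⟨u, hu⟩ := (LinearMap.injective_iff_surjective_of_finrank_eq_finrank
    (finrank_eq hE hF h bE bF hσ hτ tE tF)).1 hi ⟨v, hv⟩
  exact ⟨u, congrFun (congrArg Subtype.val hu)⟩

end Pool.Agent.Lib.MP_d3d358_ag.Th.Ker
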