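import Pool.Agent.Lib.MP_d3d358_ag.Fm.F4A
import Pool.Agent.Lib.MP_d3d358_ag.Fm.Phi
import Pool.Agent.Lib.MP_d3d358_ag.Hom.KE

/-! The Fourier-Mukai functor keeps pointwise exact complexes. -/

set_option autoImplicit false

namespace Pool.Agent.Lib.MP_d3d358_ag.Th

open CategoryTheory

variable {n : ℕ} {C C' : Cr n} {A : Type 1} [Category.{0} A] [Abelian A] [Linear ℂ A] [HasExt.{1} A]
  [HasDerivedCategory.{1} A]

theorem F4 (κ : Ker C C') (B : BKR C A) {X : HK (PC C (-κ.p))} (hX : En ⊤ X)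
    (h : PAc ((KF (inc C _)).obj X)) : PAc ((KF (Phi κ)).obj X) :=
  F4_va κ fun y => B.KE (κ.le_ind_Ky y) (en_inc hX) h

end Pool.Agent.Lib.MP_d3d358_ag.Th
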