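import Pool.Agent.Lib.MP_d3d358_ag.Var.Grp

/-! The symmetric Schroedinger representation of `(ℤ/3)^(2m)` and the projective representation
of an `S₃`-lattice with cocycle `exp (π i k / 3)`. -/

set_option autoImplicit false
set_option linter.unusedSectionVars false

namespace Pool.Agent.Lib.MP_d3d358_ag.Fm

open Matrix Complex Var

variable {ι : Type} [Fintype ι] [DecidableEq ι]

/-- the phase space -/
abbrev Ph (ι : Type) : Type := (ι → ZMod 3) × (ι → ZMod 3)

/-- the standard symplectic form -/
def sp (A B : Ph ι) : ZMod 3 := A.1 ⬝ᵥ B.2 - A.2 ⬝ᵥ B.1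

/-- the Weyl operators -/
noncomputable def heis (A : Ph ι) : Matrix (ι → ZMod 3) (ι → ZMod 3) ℂ :=
  of fun x y => if x = y + A.1 then chi (A.2 ⬝ᵥ (x + y)) else 0

theorem heis_mul (A B : Ph ι) : heis A * heis B = chi (-sp A B) • heis (A + B) := by
  ext x z
  rw [Matrix.mul_apply, Finset.sum_eq_single (z + B.1)]
  · simp only [heis, of_apply, if_true, Matrix.smul_apply, Prod.fst_add, Prod.snd_add, smul_eq_mul]
    by_cases h : x = z + B.1 + A.1
    · rw [if_pos h, if_pos (by rw [h]; abel), ← chi_add, ← chi_add, h]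
      congr 1
      simp only [sp, add_dotProduct, dotProduct_add, dotProduct_comm A.1 B.2]
      ring
    · rw [if_neg h, if_neg (fun e => h (by rw [e]; abel)), zero_mul, mul_zero]
  · intro y _ hy
    simp [heis, hy]
  · simp

theorem heis_zero : heis (0 : Ph ι) = 1 := by
  ext x y
  simp [heis, Matrix.one_apply]

theorem heis_conj (A : Ph ι) : (heis A)ᴴ = heis (-A) := by
  ext x y
  simp only [heis, conjTranspose_apply, of_apply, Prod.fst_neg, Prod.snd_neg]
  by_cases h : y = x + A.1
  · rw [if_pos h, if_pos (by rw [h]; abel), neg_dotProduct, add_comm x y]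
    exact conj_chi _
  · rw [if_neg h, if_neg (fun e => h (by rw [e]; abel)), star_zero]

theorem heis_unit (A : Ph ι) : (heis A)ᴴ * heis A = 1 := by
  rw [heis_conj, heis_mul, neg_add_cancel, heis_zero]
  simp [sp, dotProduct_comm A.1 A.2]

/-- the parity operator -/
def par (ι : Type) [Fintype ι] [DecidableEq ι] : Matrix (ι → ZMod 3) (ι → ZMod 3) ℂ :=
  of fun x y => if x = -y then 1 else 0

theorem par_mul_apply (N : Matrix (ι → ZMod 3) (ι → ZMod 3) ℂ) (x y : ι → ZMod 3) :
    (par ι * N) x y = N (-x) y := by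
  rw [Matrix.mul_apply, Finset.sum_eq_single (-x)]
  · simp [par]
  · intro z _ hz
    have : x ≠ -z := fun e => hz (by rw [e, neg_neg])
    simp [par, this]
  · simp

theorem mul_par_apply (N : Matrix (ι → ZMod 3) (ι → ZMod 3) ℂ) (x y : ι → ZMod 3) :
    (N * par ι) x y = N x (-y) := by
  rw [Matrix.mul_apply, Finset.sum_eq_single (-y)]
  · simp [par]
  · intro z _ hz
    simp [par, hz]
  · simp

theorem par_par : par ι * par ι = 1 := by
  ext x y
  rw [par_mul_apply]
  simp [par, Matrix.one_apply]

theorem par_conj : (par ι)ᴴ = par ι := by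
  ext x y
  simp only [par, conjTranspose_apply, of_apply]
  by_cases h : y = -x
  · rw [if_pos h, if_pos (by rw [h, neg_neg]), star_one]
  · rw [if_neg h, if_neg (fun e => h (by rw [e, neg_neg])), star_zero]

theorem par_heis (A : Ph ι) : par ι * heis A = heis (-A) * par ι := by
  ext x y
  rw [par_mul_apply, mul_par_apply]
  simp only [heis, of_apply, Prod.fst_neg, Prod.snd_neg]
  by_cases h : -x = y + A.1
  · rw [if_pos h, if_pos (by rw [← neg_add, ← h, neg_neg]), neg_dotProduct, ← dotProduct_neg]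
    congr 2
    abel
  · rw [if_neg h, if_neg (fun e => h (by rw [e]; abel))]

/-- the action of the finite group on the Schroedinger representation -/
def sig (ι : Type) [Fintype ι] [DecidableEq ι] : G → Matrix (ι → ZMod 3) (ι → ZMod 3) ℂ
  | .r _ => 1
  | .sr _ => par ι

theorem sig_unit (g : G) : (sig ι g)ᴴ * sig ι g = 1 := by
  cases g <;> simp [sig, par_conj, par_par]

theorem sig_mul (g h : G) : sig ι (g * h) = sig ι g * sig ι h := by
  cases g <;> cases h <;> simp [sig, par_par]

theorem exp_third (k : ℤ) :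
    exp (Real.pi * I * (k / 3)) = (-1) ^ k * chi (-(k : ZMod 3)) := by
  rw [← Int.cast_neg, chi, ZMod.stdAddChar_coe, ← Complex.exp_pi_mul_I, ← Complex.exp_int_mul,
    ← Complex.exp_add]
  congr 1
  push_cast
  ring

/-- An abelian group with an action of `S₃` without invariants of the rotations, an invariant
integral alternating form, and a description of this form modulo three. -/
structure KData (M : Type) [AddCommGroup M] (ι : Type) [Fintype ι] where
  act : G → M →+ M
  act_mul : ∀ g h a, act (g * h) a = act g (act h a)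
  rot : ∀ a, a + act (.r 1) a + act (.r 1) (act (.r 1) a) = 0
  k : M →+ M →+ ℤ
  k_self : ∀ a, k a a = 0
  k_act : ∀ g a b, k (act g a) (act g b) = k a b
  u : M →+ Ph ι
  u_r : ∀ j a, u (act (.r j) a) = u a
  u_sr : ∀ j a, u (act (.sr j) a) = -u a
  k_mod : ∀ a b, (k a b : ZMod 3) = sp (u a) (u b)

variable {M : Type} [AddCommGroup M] (D : KData M ι)

namespace KData

theorem k_swap (a b : M) : D.k a b = -D.k b a := by
  have h := D.k_self (a + b)
  simp only [map_add, AddMonoidHom.add_apply, D.k_self] at h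
  omega

/-- the invariant quadratic refinement modulo two -/
noncomputable def sgn (a : M) : ℂ := (-1) ^ D.k a (D.act (.r 1) a)

theorem neg_one_zpow_even (m : ℤ) : (-1 : ℂ) ^ (2 * m) = 1 := by
  rw [_root_.zpow_mul]; simp

theorem sgn_add (a b : M) : D.sgn a * D.sgn b = (-1) ^ D.k a b * D.sgn (a + b) := by
  have h0 : (-1 : ℂ) ≠ 0 := by norm_num
  have h3 := D.k_act (.r 1) a (D.act (.r 1) b)
  have h5 := D.k_act (.r 1) a b
  have h6 := D.k_swap b (D.act (.r 1) a)
  have h7 := congrArg (D.k (D.act (.r 1) a)) (D.rot b)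
  simp only [map_add, map_zero] at h7
  have e : D.k a b + D.k (a + b) (D.act (.r 1) (a + b)) =
      D.k a (D.act (.r 1) a) + D.k b (D.act (.r 1) b) + 2 * (D.k a b + D.k a (D.act (.r 1) b)) := by
    simp only [map_add, AddMonoidHom.add_apply]
    omega
  rw [sgn, sgn, sgn, ← zpow_add₀ h0, ← zpow_add₀ h0, e, zpow_add₀ h0 _ (2 * _), neg_one_zpow_even,
    mul_one]

theorem sgn_act (g : G) (a : M) : D.sgn (D.act g a) = D.sgn a := by
  have h0 : (-1 : ℂ) ≠ 0 := by norm_num
  cases g with
  | r j =>
    rw [sgn, sgn, ← D.act_mul, show (DihedralGroup.r 1 * .r j : G) = .r j * .r 1 by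
      simp [add_comm], D.act_mul, D.k_act]
  | sr j =>
    have e : D.k (D.act (.sr j) a) (D.act (.r 1) (D.act (.sr j) a)) = -D.k a (D.act (.r 1) a) := by
      rw [← D.k_act (.r (-1)), ← D.act_mul, ← D.act_mul, ← D.act_mul, D.k_swap a,
        neg_neg, ← D.k_act (.sr j) (D.act (.r 1) a) a, ← D.act_mul]
      congr 3 <;> simp [add_comm]
    rw [sgn, sgn, e, _root_.zpow_neg, ← _root_.inv_zpow, inv_neg, inv_one]

theorem sgn_unit (a : M) : star (D.sgn a) * D.sgn a = 1 := by
  have h0 : (-1 : ℂ) ≠ 0 := by norm_num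
  rw [sgn, star_zpow₀, star_neg, star_one, ← zpow_add₀ h0, ← two_mul, neg_one_zpow_even]

/-- the projective representation -/
noncomputable def rho (a : M) : Matrix (ι → ZMod 3) (ι → ZMod 3) ℂ := D.sgn a • heis (D.u a)

theorem rho_unit (a : M) : (D.rho a)ᴴ * D.rho a = 1 := by
  rw [rho, conjTranspose_smul, Matrix.smul_mul, Matrix.mul_smul, smul_smul, heis_unit, sgn_unit,
    one_smul]

theorem rho_mul (a b : M) :
    D.rho a * D.rho b = exp (Real.pi * I * (D.k a b / 3)) • D.rho (a + b) := by
  rw [rho, rho, rho, Matrix.smul_mul, Matrix.mul_smul, heis_mul, smul_smul, smul_smul, smul_smul,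
    sgn_add, exp_third, D.k_mod, map_add]
  congr 1
  ring

theorem sig_rho (g : G) (a : M) : sig ι g * D.rho a = D.rho (D.act g a) * sig ι g := by
  rw [rho, rho, sgn_act, Matrix.smul_mul, Matrix.mul_smul]
  cases g with
  | r j => rw [D.u_r, sig, Matrix.one_mul, Matrix.mul_one]
  | sr j => rw [D.u_sr, sig, par_heis]

end KData

end Pool.Agent.Lib.MP_d3d358_ag.Fm
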