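import Pool.Agent.Lib.MP_d3d358_ag.Th.PhiA
import Pool.Agent.Lib.MP_d3d358_ag.Th.Ind
import Pool.Agent.Lib.MP_d3d358_ag.Hom.Defs

/-! The fibre of the Fourier-Mukai transform at a point is a space of morphisms. -/

set_option autoImplicit false

namespace Pool.Agent.Lib.MP_d3d358_ag.Th

open Matrix Complex CategoryTheory

variable {n : ℕ} {C C' : Cr n} {κ : Ker C C'}

namespace Ker

theorem mem_chr {E : ObjL C.toLat} {c : ℝ} {y : Fin n → ℂ}
    {f : (Fin n → ℂ) → Matrix E.ι κ.K.ι ℂ} : f ∈ HomL (κ.K.toObjL.chr c y) E ↔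
      (∀ i j, Differentiable ℂ fun z => f z i j) ∧
        κ.Aut E (fun l => exp (-(2 * Real.pi * I * (c * alt y l : ℝ)))) f := by
  refine and_congr_right fun _ => forall_congr' fun l => forall_congr' fun z => ?_
  have e : (κ.K.toObjL.chr c y).fac l z =
      (aut (-κ.p) l z * exp (2 * Real.pi * I * (c * alt y l : ℝ))) • κ.K.ρ l := by
    ext i j
    rw [ObjL.fac, diagonal_mul]
    simp only [κ.K_t, Matrix.smul_apply, smul_eq_mul, mul_assoc]
  rw [e, Matrix.mul_smul, ObjL.fac, Matrix.mul_assoc, ← Matrix.ext_iff, ← Matrix.ext_iff]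
  refine forall_congr' fun i => forall_congr' fun j => ?_
  have h1 : aut (κ.p + E.t i) l z * aut (-κ.p) l z = aut (E.t i) l z := by
    rw [← aut_add]; congr 1; ring
  rw [diagonal_mul, rows_apply, Matrix.smul_apply, Matrix.smul_apply, smul_eq_mul, smul_eq_mul,
    ← h1]
  beta_reduce
  rw [Complex.exp_neg]
  have h2 := aut_ne (-κ.p) l z
  have h3 := Complex.exp_ne_zero (2 * Real.pi * I * (c * alt y l : ℝ))
  constructor
  · intro h
    apply mul_left_cancel₀ (mul_ne_zero h2 h3)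
    rw [h]; field_simp
  · intro h
    rw [h]; field_simp

theorem Aut.smul {E : ObjL C.toLat} {ψ : C.L → ℂ} {f : (Fin n → ℂ) → Matrix E.ι κ.K.ι ℂ}
    (hf : κ.Aut E ψ f) (a : ℂ) (y : Fin n → ℂ) :
    κ.Aut E (fun l => ψ l * exp (a * eta l y)) fun z => exp (a * eta z y) • f z := by
  intro l z
  rw [Matrix.smul_mul, hf l z]
  ext i j
  simp only [Matrix.smul_apply, rows_apply, Matrix.mul_smul, smul_eq_mul, eta_add_left, mul_add,
    Complex.exp_add]
  ring

theorem Aut.congr {E : ObjL C.toLat} {ψ ψ' : C.L → ℂ} {f : (Fin n → ℂ) → Matrix E.ι κ.K.ι ℂ}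
    (hf : κ.Aut E ψ f) (h : ∀ l, ψ l = ψ' l) : κ.Aut E ψ' f := funext h ▸ hf

theorem diff_smul {ι β : Type} {f : (Fin n → ℂ) → Matrix ι β ℂ}
    (hf : ∀ i j, Differentiable ℂ fun z => f z i j) (a : ℂ) (y : Fin n → ℂ) (i : ι) (j : β) :
    Differentiable ℂ fun z => (exp (a * eta z y) • f z) i j :=
  ((differentiable_eta y).const_mul a).cexp.mul (hf i j)

variable (κ) in
/-- The source that represents the fibre at `y`. -/
noncomputable abbrev Ky (y : Fin n → ℂ) : ObjL C.toLat := κ.K.toObjL.chr (-κ.b) y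

theorem J_smul (E : ObjL C.toLat) (y : Fin n → ℂ) (c : ℂ) (f : (Fin n → ℂ) → Matrix E.ι κ.K.ι ℂ)
    (z : Fin n → ℂ) : κ.J E y (c • f) z = c • κ.J E y f z := rfl

theorem J_add (E : ObjL C.toLat) (y : Fin n → ℂ) (f g : (Fin n → ℂ) → Matrix E.ι κ.K.ι ℂ)
    (z : Fin n → ℂ) : κ.J E y (f + g) z = κ.J E y f z + κ.J E y g z := rfl

/-- The fibre of the transform at `y` as a space of morphisms. -/
noncomputable def Jeq {E : ObjL C.toLat} (hE : κ.Pos E) (y : Fin n → ℂ) :
    κ.W E ≃ₗ[ℂ] HomL (κ.Ky y) E where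
  toFun f := ⟨fun z => exp (-(Real.pi * κ.b) * eta z y) • κ.J E y f.1 z, mem_chr.2
    ⟨diff_smul (J_diff (mem_W.1 f.2).1 y) _ y, (((mem_W.1 f.2).2.J hE y).smul _ y).congr fun l => by
      rw [one_mul, ← Complex.exp_add]
      congr 1
      push_cast
      linear_combination (Real.pi * κ.b) * eta_sub_eta y l⟩⟩
  invFun g := ⟨κ.J E (-y) fun z => exp ((Real.pi * κ.b) * eta z y) • g.1 z, mem_W.2
    ⟨J_diff (diff_smul (mem_chr.1 g.2).1 _ y) _,
      (((mem_chr.1 g.2).2.smul _ y).J hE (-y)).congr fun l => by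
        rw [← Complex.exp_add, ← Complex.exp_add, ← Complex.exp_zero, eta_neg_left]
        congr 1
        push_cast
        linear_combination -(Real.pi * κ.b) * eta_sub_eta y l⟩⟩
  map_add' f g := Subtype.ext (funext fun z => by
    simp only [Submodule.coe_add, J_add, smul_add, Pi.add_apply])
  map_smul' c f := Subtype.ext (funext fun z => by
    simp only [Submodule.coe_smul, J_smul, Pi.smul_apply, RingHom.id_apply, smul_comm c])
  left_inv f := Subtype.ext (by
    simp only [smul_smul, ← Complex.exp_add, neg_mul, add_neg_cancel, Complex.exp_zero, one_smul]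
    rw [J_J, neg_add_cancel, J_zero])
  right_inv g := Subtype.ext (funext fun z => by
    simp only [J_J, add_neg_cancel, J_zero, smul_smul, ← Complex.exp_add, neg_mul, neg_add_cancel,
      Complex.exp_zero, one_smul])

theorem Jeq_apply {E : ObjL C.toLat} (hE : κ.Pos E) (y : Fin n → ℂ) (f : κ.W E) (z : Fin n → ℂ) :
    (Jeq hE y f).1 z = exp (-(Real.pi * κ.b) * eta z y) • κ.J E y f.1 z := rfl

theorem Jeq_PhiL {E F : ObjL C.toLat} (hE : κ.Pos E) (hF : κ.Pos F) (u : HomL E F)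
    (y : Fin n → ℂ) (f : κ.W E) (z : Fin n → ℂ) :
    (Jeq hF y (PhiL hE hF u y f)).1 z = u.1 z * (Jeq hE y f).1 z := by
  rw [Jeq_apply, Jeq_apply, PhiL_coe, PhiF, J_J, add_neg_cancel, J_zero, Matrix.mul_smul]

/-- The fibre of the transform at `y` is represented by an induced object. -/
noncomputable def fib {E : Obj C} (hE : κ.Pos E.toObjL) (y : Fin n → ℂ) :
    (ind (κ.Ky y) ⟶ E) ≃ₗ[ℂ] κ.W E.toObjL := (frob _ E).trans (Jeq hE y).symm

theorem fib_comp {E F : Obj C} (hE : κ.Pos E.toObjL) (hF : κ.Pos F.toObjL) (y : Fin n → ℂ)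
    (g : ind (κ.Ky y) ⟶ E) (u : E ⟶ F) :
    fib hF y (g ≫ u) = PhiL hE hF ⟨u.1, u.2.1⟩ y (fib hE y g) := by
  refine (Jeq hF y).injective (Subtype.ext (funext fun z => ?_))
  rw [Jeq_PhiL, fib, fib, LinearEquiv.trans_apply, LinearEquiv.trans_apply,
    LinearEquiv.apply_symm_apply, LinearEquiv.apply_symm_apply, frob_comp]

theorem le_ind_Ky (y : Fin n → ℂ) : Le (-κ.p) (ind (κ.Ky y)) := fun i => (κ.K_t i.2).le

/-- Exactness of the morphisms from the induced object gives exactness in the fibre at `y`. -/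
theorem exact_PhiL {D E F : Obj C} (hD : κ.Pos D.toObjL) (hE : κ.Pos E.toObjL)
    (hF : κ.Pos F.toObjL) (u : D ⟶ E) (v : E ⟶ F) (h0 : u ≫ v = 0) (y : Fin n → ℂ)
    (h : ∀ g : ind (κ.Ky y) ⟶ E, g ≫ v = 0 → ∃ f : ind (κ.Ky y) ⟶ D, f ≫ u = g) :
    Function.Exact (PhiL hD hE ⟨u.1, u.2.1⟩ y) (PhiL hE hF ⟨v.1, v.2.1⟩ y) := by
  intro x
  obtain ⟨g, rfl⟩ := (fib hE y).surjective x
  rw [← fib_comp, LinearEquiv.map_eq_zero_iff]
  constructor
  · intro e
    obtain ⟨f, rfl⟩ := h g e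
    exact ⟨fib hD y f, (fib_comp hD hE y f u).symm⟩
  · rintro ⟨x, hx⟩
    obtain ⟨f, rfl⟩ := (fib hD y).surjective x
    rw [← fib_comp] at hx
    rw [← (fib hE y).injective hx, Category.assoc, h0, Limits.comp_zero]

end Ker

end Pool.Agent.Lib.MP_d3d358_ag.Th
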