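import Pool.Agent.Lib.MP_d3d358_ag.Fm.Trip
import Pool.Agent.Lib.MP_d3d358_ag.G.Kum

/-! The kernel data of a pair of dual lattices of type `(1, 5)`. -/

set_option autoImplicit false

namespace Pool.Agent.Lib.MP_d3d358_ag.Fm

open Matrix Complex Pool.Agent.Lib.MP_d3d358_ag.Th Pool.Agent.Lib.MP_d3d358_ag.G
open Pool.Agent.Lib.MP_d3d358_ag.Var (V gv gv_mul)

noncomputable section

/-- integral coordinates in a lattice of rank four -/
def co (A : Lat 2) : A.L →+ (Fin 4 → ℤ) :=
  (A.bas.restrictScalars ℤ).equivFun.toLinearMap.toAddMonoidHom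

theorem co_sum (A : Lat 2) (x : A.L) :
    (x : Fin 2 → ℂ) = ∑ i : Fin 4, (co A x i : ℝ) • A.bas i := by
  have h := congrArg Subtype.val ((A.bas.restrictScalars ℤ).sum_equivFun x)
  rw [← h]
  simp only [AddSubmonoidClass.coe_finsetSum, SetLike.val_smul, Module.Basis.restrictScalars_apply]
  exact Finset.sum_congr rfl fun i _ => (Int.cast_smul_eq_zsmul ℝ _ _).symm

theorem alt_sum4 (a b : Fin 4 → ℝ) (v w : Fin 4 → Fin 2 → ℂ) :
    alt (∑ i, a i • v i) (∑ j, b j • w j) = ∑ i, ∑ j, a i * b j * alt (v i) (w j) := by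
  simp only [Fin.sum_univ_four, alt_add_left, alt_add_right, alt_rsmul_left, alt_rsmul_right]
  ring

theorem alt_neg_right {n : ℕ} (z w : Fin n → ℂ) : alt z (-w) = -alt z w := by
  rw [alt, eta_neg_right, Complex.neg_im, alt]

variable {A B : Lat 2} (h : Dual A B)
include h

theorem alt_AB (x : A.L) (y : B.L) : alt (x : Fin 2 → ℂ) y =
    co A x 0 * co B y 0 + co A x 1 * co B y 1 + co A x 2 * co B y 2 + co A x 3 * co B y 3 := by
  rw [co_sum A x, co_sum B y, alt_sum4]
  simp [h.dual, Fin.sum_univ_four]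

theorem alt_AA (x y : A.L) : alt (x : Fin 2 → ℂ) y =
    co A x 1 * co A y 0 - co A x 0 * co A y 1 +
      5 * (co A x 3 * co A y 2 - co A x 2 * co A y 3) := by
  have e0 (i : Fin 4) : alt (A.bas i) (A.bas (0 : Fin 4)) = if i = 1 then 1 else 0 := by
    rw [← h.dual i 1, ← h.e0]
  have e1 (i : Fin 4) : alt (A.bas i) (A.bas (1 : Fin 4)) = -if i = 0 then 1 else 0 := by
    rw [← h.dual i 0, ← alt_neg_right, ← h.e1]
  have e2 (i : Fin 4) : alt (A.bas i) (A.bas (2 : Fin 4)) = 5 * if i = 3 then 1 else 0 := by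
    rw [← h.dual i 3, ← alt_rsmul_right, ← h.e2]
  have e3 (i : Fin 4) : alt (A.bas i) (A.bas (3 : Fin 4)) = -5 * if i = 2 then 1 else 0 := by
    rw [← h.dual i 2, ← alt_rsmul_right, ← h.e3]
  rw [co_sum A x, co_sum A y, alt_sum4]
  simp [Fin.sum_univ_four, e0, e1, e2, e3]
  ring

theorem alt_BB (x y : B.L) : 5 * alt (x : Fin 2 → ℂ) y =
    5 * (co B x 1 * co B y 0 - co B x 0 * co B y 1) +
      (co B x 3 * co B y 2 - co B x 2 * co B y 3) := by
  have e1 (i : Fin 4) : alt (B.bas (1 : Fin 4)) (B.bas i) = if 0 = i then 1 else 0 := by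
    rw [← h.dual 0 i, h.e0]
  have e0 (i : Fin 4) : alt (B.bas (0 : Fin 4)) (B.bas i) = -if 1 = i then 1 else 0 := by
    rw [← h.dual 1 i, h.e1, alt_swap (-_), alt_neg_right, neg_neg, alt_swap]
  have e3 (i : Fin 4) : alt (B.bas (3 : Fin 4)) (B.bas i) = 5⁻¹ * if 2 = i then 1 else 0 := by
    rw [← h.dual 2 i, h.e2, alt_rsmul_left]; ring
  have e2 (i : Fin 4) : alt (B.bas (2 : Fin 4)) (B.bas i) = -5⁻¹ * if 3 = i then 1 else 0 := by
    rw [← h.dual 3 i, h.e3, alt_rsmul_left]; ring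
  rw [co_sum B x, co_sum B y, alt_sum4]
  simp [Fin.sum_univ_four, e0, e1, e2, e3]
  ring

theorem eps_real (x x' : A.L) (y y' : B.L) :
    (epsHom (co A x, co B y) (co A x', co B y') : ℝ) =
      alt (x : Fin 2 → ℂ) x' + alt (x : Fin 2 → ℂ) y' + alt (y : Fin 2 → ℂ) x' -
        5 * alt (y : Fin 2 → ℂ) y' := by
  rw [alt_AA h, alt_AB h, alt_swap (y : Fin 2 → ℂ) x', alt_AB h, alt_BB h]
  simp only [epsHom, AddMonoidHom.mk'_apply, eps15]
  push_cast
  ring

omit h

/-- the point number `k` of a lattice triple -/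
def pt (A : Lat 2) (k : ZMod 3) : (lat3 A).L →+ A.L where
  toFun l := ⟨crd k l, mem_lat3.1 l.2 k⟩
  map_zero' := Subtype.ext (map_zero (crd k))
  map_add' _ _ := Subtype.ext (map_add (crd k) _ _)

/-- the action on lattice triples -/
def act3 (A : Sf) (g : Var.G) : A.cr.L →+ A.cr.L where
  toFun := A.cr.actL g
  map_zero' := Subtype.ext (Var.gv_zero g)
  map_add' _ _ := Subtype.ext (Var.gv_add g _ _)

theorem act3_mul (A : Sf) (g g' : Var.G) (l : A.cr.L) :
    act3 A (g * g') l = act3 A g (act3 A g' l) := Subtype.ext (gv_mul g g' _)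

theorem gv_rot (z : V) : z + gv (.r 1) z + gv (.r 1) (gv (.r 1) z) = 0 := by
  have h := chi_one_quad
  have h3 := Var.chi_cube 1
  funext i
  simp only [Pi.add_apply, Pi.zero_apply]
  fin_cases i <;> simp [Var.gv_r, chi_neg_one]
  · linear_combination z 0 * h
  · linear_combination z 1 * h
  · linear_combination z 2 * h + z 2 * Var.chi 1 * h3
  · linear_combination z 3 * h + z 3 * Var.chi 1 * h3

theorem act3_rot (A : Sf) (l : A.cr.L) :
    l + act3 A (.r 1) l + act3 A (.r 1) (act3 A (.r 1) l) = 0 := Subtype.ext (gv_rot _)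

theorem pt_act (A : Sf) (k : ZMod 3) (g : Var.G) (l : A.cr.L) :
    pt A.toLat k (act3 A g l) = pt A.toLat (prm g k) l := Subtype.ext (crd_gv k g _)

theorem pt_sum (A : Lat 2) (l : (lat3 A).L) : pt A 0 l + pt A 1 l + pt A 2 l = 0 :=
  Subtype.ext (crd_sum _)

/-- the data of triples for the product of the two lattices -/
def tdata (A B : Sf) : TData (A.cr.L × B.cr.L) N15 (Fin 2) where
  act g := (act3 A g).prodMap (act3 B g)
  act_mul g g' a := Prod.ext (act3_mul A g g' a.1) (act3_mul B g g' a.2)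
  rot a := Prod.ext (act3_rot A a.1) (act3_rot B a.2)
  ν k := ((co A.toLat).comp (pt A.toLat k)).prodMap ((co B.toLat).comp (pt B.toLat k))
  ν_sum a := Prod.ext
    (by have := congrArg (co A.toLat) (pt_sum A.toLat a.1)
        rwa [map_add, map_add, map_zero] at this)
    (by have := congrArg (co B.toLat) (pt_sum B.toLat a.2)
        rwa [map_add, map_add, map_zero] at this)
  ν_r k j a := Prod.ext (congrArg (co A.toLat) (pt_act A j (.r k) a.1))
    (congrArg (co B.toLat) (pt_act B j (.r k) a.2))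
  ν_sr k j a := Prod.ext (congrArg (co A.toLat) (pt_act A j (.sr k) a.1))
    (congrArg (co B.toLat) (pt_act B j (.sr k) a.2))
  ε := epsHom
  ε_self := eps15_self
  w := w15
  ε_mod := eps15_mod

theorem k_real {A B : Sf} (h : Dual A.toLat B.toLat) (l l' : A.cr.L) (m m' : B.cr.L) :
    ((tdata A B).toK.k (l, m) (l', m') : ℝ) =
      alt (l : V) l' + alt (l : V) m' + alt (m : V) l' - 5 * alt (m : V) m' := by
  have e (j : ZMod 3) := eps_real h (pt A.toLat j l) (pt A.toLat j l') (pt B.toLat j m)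
    (pt B.toLat j m')
  change ((tdata A B).k (l, m) (l', m') : ℝ) = _
  rw [TData.k_apply, sum_zmod3, Int.cast_add, Int.cast_add, alt_crd (l : V) l', alt_crd (l : V) m',
    alt_crd (m : V) l', alt_crd (m : V) m']
  exact (congrArg₂ (· + ·) (congrArg₂ (· + ·) (e 0) (e 1)) (e 2)).trans (by
    simp only [pt, AddMonoidHom.coe_mk, ZeroHom.coe_mk]; ring)

/-- the projective representation of the product of the two lattices on `ℂ⁹` -/
def rho0 (A B : Sf) (l : A.cr.L) (m : B.cr.L) :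
    Matrix (Fin 2 → ZMod 3) (Fin 2 → ZMod 3) ℂ := (tdata A B).toK.rho (l, m)

theorem rho0_unit (A B : Sf) (l : A.cr.L) (m : B.cr.L) : (rho0 A B l m)ᴴ * rho0 A B l m = 1 :=
  KData.rho_unit _ _

theorem rho0_mul {A B : Sf} (h : Dual A.toLat B.toLat) (l l' : A.cr.L) (m m' : B.cr.L) :
    rho0 A B l m * rho0 A B l' m' =
      exp (Real.pi * I * ((1 / 3 * alt (l : V) l' + 1 / 3 * (alt (l : V) m' + alt (m : V) l') +
        -5 / 3 * alt (m : V) m' : ℝ) : ℂ)) • rho0 A B (l + l') (m + m') := by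
  rw [rho0, rho0, KData.rho_mul, ← Complex.ofReal_intCast, k_real h]
  congr 3
  push_cast
  ring

theorem sig_rho0 (A B : Sf) (g : Var.G) (l : A.cr.L) (m : B.cr.L) :
    sig (Fin 2) g * rho0 A B l m = rho0 A B (A.cr.actL g l) (B.cr.actL g m) * sig (Fin 2) g :=
  KData.sig_rho _ g (l, m)

end

end Pool.Agent.Lib.MP_d3d358_ag.Fm
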