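import Pool.Agent.Lib.MP_d3d358_ag.Fm.Heis

/-! Kernel data from triples with sum zero. -/

set_option autoImplicit false
set_option linter.unusedSectionVars false

namespace Pool.Agent.Lib.MP_d3d358_ag.Fm

open Matrix Complex Var

variable {ι : Type} [Fintype ι] {M N : Type} [AddCommGroup M] [AddCommGroup N]

theorem sum_zmod3 {A : Type} [AddCommMonoid A] (f : ZMod 3 → A) : ∑ j, f j = f 0 + f 1 + f 2 :=
  Fin.sum_univ_three f

theorem sp_add_left (A A' B : Ph ι) : sp (A + A') B = sp A B + sp A' B := by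
  simp only [sp, Prod.fst_add, Prod.snd_add, add_dotProduct]; ring

theorem sp_add_right (A B B' : Ph ι) : sp A (B + B') = sp A B + sp A B' := by
  simp only [sp, Prod.fst_add, Prod.snd_add, dotProduct_add]; ring

theorem sp_neg_left (A B : Ph ι) : sp (-A) B = -sp A B := by
  simp only [sp, Prod.fst_neg, Prod.snd_neg, neg_dotProduct]; ring

theorem sp_neg_right (A B : Ph ι) : sp A (-B) = -sp A B := by
  simp only [sp, Prod.fst_neg, Prod.snd_neg, dotProduct_neg]; ring

theorem three_ph (A : Ph ι) : A + A + A = 0 := by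
  have h : ∀ x : ZMod 3, x + x + x = 0 := by decide
  ext i <;> exact h _

/-- The data of a lattice of triples with sum zero. -/
structure TData (M N : Type) [AddCommGroup M] [AddCommGroup N] (ι : Type) [Fintype ι] where
  act : G → M →+ M
  act_mul : ∀ g h a, act (g * h) a = act g (act h a)
  rot : ∀ a, a + act (.r 1) a + act (.r 1) (act (.r 1) a) = 0
  ν : ZMod 3 → M →+ N
  ν_sum : ∀ a, ν 0 a + ν 1 a + ν 2 a = 0
  ν_r : ∀ k j a, ν j (act (.r k) a) = ν (j - k) a
  ν_sr : ∀ k j a, ν j (act (.sr k) a) = ν (-j - k) a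
  ε : N →+ N →+ ℤ
  ε_self : ∀ x, ε x x = 0
  w : N →+ Ph ι
  ε_mod : ∀ x y, (ε x y : ZMod 3) = -sp (w x) (w y)

namespace TData

variable (T : TData M N ι)

/-- the form on triples -/
def k : M →+ M →+ ℤ := ∑ j, (T.ε.comp (T.ν j)).compl₂ (T.ν j)

theorem k_apply (a b : M) : T.k a b = ∑ j, T.ε (T.ν j a) (T.ν j b) := by
  simp [k, AddMonoidHom.finsetSum_apply]

/-- the class modulo three -/
def u : M →+ Ph ι := T.w.comp (T.ν 1 - T.ν 2)

theorem u_apply (a : M) : T.u a = T.w (T.ν 1 a) - T.w (T.ν 2 a) := by simp [u]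

theorem w_zero (a : M) : T.w (T.ν 0 a) = -(T.w (T.ν 1 a) + T.w (T.ν 2 a)) := by
  have := congrArg T.w (T.ν_sum a)
  rw [map_add, map_add, map_zero, add_assoc] at this
  exact eq_neg_of_add_eq_zero_left this

theorem w_sub (j : ZMod 3) (a : M) : T.w (T.ν j a) - T.w (T.ν (j + 1) a) = T.u a := by
  have h1 := three_ph (T.w (T.ν 1 a))
  have h2 := three_ph (T.w (T.ν 2 a))
  have h : ∀ j : ZMod 3, j = 0 ∨ j = 1 ∨ j = 2 := by decide
  rw [u_apply]
  rcases h j with rfl | rfl | rfl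
  · rw [w_zero, zero_add]
    linear_combination (exp := 1) -h1
  · rfl
  · rw [show (2 + 1 : ZMod 3) = 0 by decide, w_zero]
    linear_combination (exp := 1) h2

/-- the kernel data -/
def toK : KData M ι where
  act := T.act
  act_mul := T.act_mul
  rot := T.rot
  k := T.k
  k_self a := by simp [k_apply, T.ε_self]
  k_act g a b := by
    rw [k_apply, k_apply]
    cases g with
    | r k =>
      simp only [T.ν_r]
      exact Equiv.sum_comp (Equiv.subRight k) fun j => T.ε (T.ν j a) (T.ν j b)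
    | sr k =>
      simp only [T.ν_sr]
      exact Equiv.sum_comp ((Equiv.neg _).trans (Equiv.subRight k))
        fun j => T.ε (T.ν j a) (T.ν j b)
  u := T.u
  u_r k a := by
    rw [u_apply, T.ν_r, T.ν_r, ← T.w_sub (1 - k) a]
    congr 3
    rw [sub_add_eq_add_sub]
    congr 1
  u_sr k a := by
    rw [u_apply, T.ν_sr, T.ν_sr, ← T.w_sub (-2 - k) a, neg_sub]
    congr 3
    rw [sub_add_eq_add_sub]
    congr 1
  k_mod a b := by
    have h3 : (3 : ZMod 3) = 0 := by decide
    rw [k_apply, sum_zmod3, u_apply, u_apply]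
    push_cast
    simp only [T.ε_mod, w_zero, sub_eq_add_neg, sp_add_left, sp_add_right, sp_neg_left,
      sp_neg_right]
    linear_combination (-sp (T.w (T.ν 1 a)) (T.w (T.ν 1 b)) -
      sp (T.w (T.ν 2 a)) (T.w (T.ν 2 b))) * h3

end TData

/-- Coordinates in the bases of a lattice of type `(1, 5)` and of its dual. -/
abbrev N15 : Type := (Fin 4 → ℤ) × (Fin 4 → ℤ)

/-- The form `E(x, x') + E(x, y') + E(y, x') - 5 E(y, y')` in coordinates. -/
def eps15 (a b : N15) : ℤ :=
  (a.1 1 * b.1 0 - a.1 0 * b.1 1 + 5 * (a.1 3 * b.1 2 - a.1 2 * b.1 3)) +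
    (a.1 0 * b.2 0 + a.1 1 * b.2 1 + a.1 2 * b.2 2 + a.1 3 * b.2 3) -
    (a.2 0 * b.1 0 + a.2 1 * b.1 1 + a.2 2 * b.1 2 + a.2 3 * b.1 3) -
    (5 * (a.2 1 * b.2 0 - a.2 0 * b.2 1) + (a.2 3 * b.2 2 - a.2 2 * b.2 3))

/-- The same as a biadditive map. -/
def epsHom : N15 →+ N15 →+ ℤ :=
  AddMonoidHom.mk' (fun a => AddMonoidHom.mk' (eps15 a) fun b c => by
    simp only [eps15, Prod.fst_add, Prod.snd_add, Pi.add_apply]; ring) fun a b => by
    ext1 c
    simp only [eps15, AddMonoidHom.mk'_apply, AddMonoidHom.add_apply, Prod.fst_add, Prod.snd_add,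
      Pi.add_apply]
    ring

/-- The class modulo three. -/
def w15 : N15 →+ Ph (Fin 2) :=
  AddMonoidHom.mk' (fun a => (![((a.2 0 - a.1 1 : ℤ) : ZMod 3), ((a.2 3 - a.1 2 : ℤ) : ZMod 3)],
    ![((a.2 1 + a.1 0 : ℤ) : ZMod 3), ((a.2 2 + a.1 3 : ℤ) : ZMod 3)])) fun a b => by
    ext i <;> fin_cases i <;> simp <;> ring

theorem eps15_self (a : N15) : epsHom a a = 0 := by
  simp only [epsHom, AddMonoidHom.mk'_apply, eps15]; ring

theorem eps15_mod (a b : N15) : (epsHom a b : ZMod 3) = -sp (w15 a) (w15 b) := by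
  have h3 : (3 : ZMod 3) = 0 := by decide
  simp only [epsHom, AddMonoidHom.mk'_apply, eps15, w15, sp, dotProduct, Fin.sum_univ_two,
    Matrix.cons_val_zero, Matrix.cons_val_one]
  push_cast
  linear_combination (2 * (a.1 3 * b.1 2 - a.1 2 * b.1 3) - 2 * (a.2 1 * b.2 0 - a.2 0 * b.2 1)) * h3

end Pool.Agent.Lib.MP_d3d358_ag.Fm
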